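import Pool.Agent.Lib.MP_4a593f_gt.BH.Sm.HmtS
import Pool.Agent.Lib.MP_4a593f_gt.BH.Ker

/-!
Part (S): the homotopy operator `B v x = ∫ ι_{k z} v (x + z) dz`, `k` the kernel of `BH.Ker`.
-/

open scoped Manifold ContDiff Bundle Topology Convolution
open MeasureTheory Filter

noncomputable section

namespace BH

open Pool.Agent.Lib.MP_4a593f_gt.BH Pool.Agent.Lib.MP_4a593f_gt.BH.Mol

variable {n q : ℕ}

/-- interior multiplication -/
def iM (n q : ℕ) : E n →L[ℝ] Alt n (q + 1) →L[ℝ] Alt n q :=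
  (ContinuousAlternatingMap.curryLeftLI (𝕜 := ℝ) (E := E n) (F := ℝ)
    (n := q)).toContinuousLinearMap.flip

theorem iM_apply (z : E n) (a : Alt n (q + 1)) : iM n q z a = a.curryLeft z := rfl

theorem norm_iM_le (z : E n) (a : Alt n (q + 1)) : ‖iM n q z a‖ ≤ ‖z‖ * ‖a‖ := by
  rw [iM_apply, mul_comm]
  have := a.curryLeft.le_opNorm z
  rwa [ContinuousAlternatingMap.norm_curryLeft] at this

/-- the homotopy operator with kernel `k` -/
def hB (k : E n → E n) (v : E n → Alt n (q + 1)) : E n → Alt n q :=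
  (fun t => k (-t)) ⋆[iM n q, volume] v

theorem hB_eq (k : E n → E n) (v : E n → Alt n (q + 1)) (x : E n) :
    hB k v x = ∫ z, iM n q (k z) (v (x + z)) := by
  rw [hB, convolution_def, ← integral_neg_eq_self (fun z => iM n q (k z) (v (x + z))) volume]
  refine integral_congr_ae (ae_of_all _ fun t => ?_)
  simp only [sub_eq_add_neg]

section kernel

variable {k : E n → E n}

theorem neg_int (hk : Integrable k) : Integrable fun t => k (-t) := hk.comp_neg

theorem hB_smooth (hk : Integrable k) {v : E n → Alt n (q + 1)} (hv : Sc v) :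
    ContDiff ℝ ∞ (hB k v) :=
  hv.supp.contDiff_convolution_right _ (neg_int hk).locallyIntegrable hv.smooth

theorem hB_supp {r : ℝ} (k0 : ∀ z, r ≤ ‖z‖ → k z = 0) {v : E n → Alt n (q + 1)} (hv : Sc v) :
    HasCompactSupport (hB k v) := by
  refine HasCompactSupport.convolution _ ?_ hv.supp
  refine HasCompactSupport.of_support_subset_isCompact (isCompact_closedBall 0 r) ?_
  intro z hz
  rw [mem_closedBall_zero_iff]
  by_contra h
  refine hz ?_
  change k (-z) = 0
  exact k0 _ (by rw [norm_neg]; exact (not_le.1 h).le)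

theorem hB_add (hk : Integrable k) {v w : E n → Alt n (q + 1)} (hv : Sc v) (hw : Sc w) :
    hB k (v + w) = hB k v + hB k w :=
  ConvolutionExists.distrib_add
    (hv.supp.convolutionExists_right _ (neg_int hk).locallyIntegrable hv.smooth.continuous)
    (hw.supp.convolutionExists_right _ (neg_int hk).locallyIntegrable hw.smooth.continuous)

theorem hB_smul (c : ℝ) (v : E n → Alt n (q + 1)) : hB k (c • v) = c • hB k v :=
  convolution_smul

theorem hB_loc {r : ℝ} (k0 : ∀ z, r ≤ ‖z‖ → k z = 0) {v w : E n → Alt n (q + 1)} (x : E n)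
    (h : ∀ y, dist y x ≤ r → v y = w y) : hB k v x = hB k w x := by
  rw [hB_eq, hB_eq]
  refine integral_congr_ae (ae_of_all _ fun z => ?_)
  change iM n q (k z) (v (x + z)) = iM n q (k z) (w (x + z))
  by_cases hz : r ≤ ‖z‖
  · rw [k0 z hz, map_zero]
    rfl
  · rw [h (x + z)]
    rw [dist_eq_norm, add_sub_cancel_left]
    exact (not_le.1 hz).le

/-- Young's inequality -/
theorem hB_bd (hk : Integrable k) {v : E n → Alt n (q + 1)} (hv : Sc v) :
    ∫ x, ‖hB k v x‖ ^ 2 ≤ (∫ z, ‖k z‖) ^ 2 * ∫ x, ‖v x‖ ^ 2 := by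
  have hk' : Integrable fun t => ‖k (-t)‖ := (neg_int hk).norm
  have hv2 : Integrable fun x => ‖v x‖ ^ 2 := hv.integrable
  have hc2 : Continuous fun x => ‖v x‖ ^ 2 := hv.smooth.continuous.norm.pow 2
  have hs2 : HasCompactSupport fun x => ‖v x‖ ^ 2 := by
    have := hv.supp.norm
    exact this.comp_left (g := fun t : ℝ => t ^ 2) (by norm_num)
  have hc1 : Continuous fun x => ‖v x‖ := hv.smooth.continuous.norm
  have e1 := hs2.convolutionExists_right (ContinuousLinearMap.mul ℝ ℝ) hk'.locallyIntegrable hc2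
  have e2 := hv.supp.norm.convolutionExists_right (ContinuousLinearMap.mul ℝ ℝ)
    hk'.locallyIntegrable hc1
  have hI : ∫ t, ‖k (-t)‖ = ∫ z, ‖k z‖ := integral_neg_eq_self (fun z => ‖k z‖) volume
  have key : ∀ x, ‖hB k v x‖ ^ 2 ≤ (∫ z, ‖k z‖) *
      ((fun t => ‖k (-t)‖) ⋆[ContinuousLinearMap.mul ℝ ℝ, volume] fun x => ‖v x‖ ^ 2) x := by
    intro x
    have h1 : ‖hB k v x‖ ≤ ∫ t, ‖k (-t)‖ * ‖v (x - t)‖ := by
      rw [hB, convolution_def]
      refine norm_integral_le_of_norm_le ?_ (ae_of_all _ fun t => norm_iM_le _ _)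
      exact e2 x
    have h2 := cs_weight (h := fun t => ‖k (-t)‖) (f := fun t => ‖v (x - t)‖)
      (fun t => norm_nonneg _) hk' (e2 x) (e1 x)
    rw [← hI]
    refine le_trans ?_ h2
    exact pow_le_pow_left₀ (norm_nonneg _) h1 2
  have hi : Integrable ((fun t => ‖k (-t)‖) ⋆[ContinuousLinearMap.mul ℝ ℝ, volume]
      fun x => ‖v x‖ ^ 2) := hk'.integrable_convolution _ hv2
  calc ∫ x, ‖hB k v x‖ ^ 2 ≤ ∫ x, (∫ z, ‖k z‖) *
      ((fun t => ‖k (-t)‖) ⋆[ContinuousLinearMap.mul ℝ ℝ, volume] fun x => ‖v x‖ ^ 2) x :=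
        integral_mono_of_nonneg (ae_of_all _ fun x => by positivity) (hi.const_mul _)
          (ae_of_all _ key)
    _ = (∫ z, ‖k z‖) * (∫ x, ((fun t => ‖k (-t)‖) ⋆[ContinuousLinearMap.mul ℝ ℝ, volume]
        fun x => ‖v x‖ ^ 2) x) := integral_const_mul _ _
    _ = (∫ z, ‖k z‖) * ((∫ z, ‖k z‖) * ∫ x, ‖v x‖ ^ 2) := by
        rw [integral_convolution _ hk' hv2, hI]
        rfl
    _ = _ := by ring

end kernel

/-! ### Cartan's formula for a constant vector -/

theorem cartan (D : E n →L[ℝ] Alt n (q + 1)) (z : E n) :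
    ContinuousAlternatingMap.alternatizeUncurryFin ((iM n q z).comp D) +
      iM n (q + 1) z (ContinuousAlternatingMap.alternatizeUncurryFin D) = D z := by
  ext m
  rw [ContinuousAlternatingMap.add_apply, iM_apply,
    ContinuousAlternatingMap.curryLeft_apply_apply,
    ContinuousAlternatingMap.alternatizeUncurryFin_apply,
    ContinuousAlternatingMap.alternatizeUncurryFin_apply, Fin.sum_univ_succ (n := q + 1)]
  have h : ∀ i : Fin (q + 1), (i.succ.removeNth (Matrix.vecCons z m) : Fin (q + 1) → E n) =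
      Matrix.vecCons z (i.removeNth m) := by
    intro i
    funext j
    refine Fin.cases ?_ (fun j => ?_) j
    · simp [Fin.removeNth]
    · simp [Fin.removeNth]
  simp only [h, Fin.val_zero, pow_zero, one_smul, Matrix.cons_val_zero, Matrix.cons_val_succ,
    Fin.val_succ, pow_succ, mul_neg, mul_one, neg_smul, Finset.sum_neg_distrib,
    ContinuousLinearMap.comp_apply, iM_apply, ContinuousAlternatingMap.curryLeft_apply_apply]
  have h0 : ((0 : Fin (q + 2)).removeNth (Matrix.vecCons z m) : Fin (q + 1) → E n) = m := by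
    funext j
    simp [Fin.removeNth]
  rw [h0]
  ring

theorem cartan0 (D : E n →L[ℝ] Alt n 0) (z : E n) :
    iM n 0 z (ContinuousAlternatingMap.alternatizeUncurryFin D) = D z := by
  ext m
  rw [iM_apply, ContinuousAlternatingMap.curryLeft_apply_apply,
    ContinuousAlternatingMap.alternatizeUncurryFin_apply]
  have h0 : ((0 : Fin 1).removeNth (Matrix.vecCons z m) : Fin 0 → E n) = m :=
    Subsingleton.elim _ _
  simp [h0]

/-! ### The homotopy formula -/

theorem int_iM {k : E n → E n} (hk : Integrable k) {F G : Type*} [NormedAddCommGroup F]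
    [NormedSpace ℝ F] [NormedAddCommGroup G] [NormedSpace ℝ G]
    (L : E n →L[ℝ] F →L[ℝ] G) {f : E n → F} (hf : Continuous f) (hs : HasCompactSupport f)
    (x : E n) : Integrable fun z => L (k z) (f (x + z)) := by
  have h := hs.convolutionExists_right L (neg_int hk).locallyIntegrable hf x
  have h2 : Integrable fun t => L (k (-t)) (f (x - t)) := h
  have h3 := h2.comp_neg
  refine h3.congr (ae_of_all _ fun z => ?_)
  simp only [neg_neg, sub_neg_eq_add]

section abs

variable {F₀ F₁ F₂ : Type*} [NormedAddCommGroup F₀] [NormedSpace ℝ F₀] [CompleteSpace F₀]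
  [NormedAddCommGroup F₁] [NormedSpace ℝ F₁] [CompleteSpace F₁]
  [NormedAddCommGroup F₂] [NormedSpace ℝ F₂]

theorem abs_fderiv {k : E n → E n} (hk : Integrable k) (I₀ : E n →L[ℝ] F₁ →L[ℝ] F₀)
    {v : E n → F₁} (hv : ContDiff ℝ 1 v) (hs : HasCompactSupport v) (x : E n) :
    fderiv ℝ ((fun t => k (-t)) ⋆[I₀, volume] v) x = ∫ z, (I₀ (k z)).comp (fderiv ℝ v (x + z)) := by
  have h1 := hs.hasFDerivAt_convolution_right I₀ (neg_int hk).locallyIntegrable hv x
  rw [h1.fderiv, convolution_def,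
    ← integral_neg_eq_self (fun z => (I₀ (k z)).comp (fderiv ℝ v (x + z))) volume]
  refine integral_congr_ae (ae_of_all _ fun t => ?_)
  simp only [sub_eq_add_neg]
  rfl

/-- the homotopy formula from Cartan's formula -/
theorem abs_hmt {k : E n → E n} (hk : Integrable k) (I₀ : E n →L[ℝ] F₁ →L[ℝ] F₀)
    (I₁ : E n →L[ℝ] F₂ →L[ℝ] F₁) (T₁ : (E n →L[ℝ] F₀) →L[ℝ] F₁) (T₂ : (E n →L[ℝ] F₁) →L[ℝ] F₂)
    (hc : ∀ (D : E n →L[ℝ] F₁) (z : E n), T₁ ((I₀ z).comp D) + I₁ z (T₂ D) = D z)
    {v : E n → F₁} (hv : ContDiff ℝ 1 v) (hs : HasCompactSupport v) (x : E n) :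
    T₁ (fderiv ℝ ((fun t => k (-t)) ⋆[I₀, volume] v) x) +
      ∫ z, I₁ (k z) (T₂ (fderiv ℝ v (x + z))) = ∫ z, fderiv ℝ v (x + z) (k z) := by
  have hdv : Continuous (fderiv ℝ v) := hv.continuous_fderiv one_ne_zero
  have hds : HasCompactSupport (fderiv ℝ v) := hs.fderiv (𝕜 := ℝ)
  have i1 : Integrable fun z => (I₀ (k z)).comp (fderiv ℝ v (x + z)) :=
    int_iM hk ((ContinuousLinearMap.compL ℝ (E n) F₁ F₀).comp I₀) hdv hds x
  have i2 : Integrable fun z => I₁ (k z) (T₂ (fderiv ℝ v (x + z))) :=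
    int_iM hk I₁ (f := fun y => T₂ (fderiv ℝ v y)) (T₂.continuous.comp hdv)
      (hds.comp_left (g := T₂) (map_zero T₂)) x
  rw [abs_fderiv hk I₀ hv hs, ← T₁.integral_comp_comm i1,
    ← integral_add (T₁.integrable_comp i1) i2]
  exact integral_congr_ae (ae_of_all _ fun z => hc _ _)

end abs

theorem hB_hmt {s : ℝ} (hs : 0 < s) {v : E n → Alt n (q + 1)} (hv : Sc v) (x : E n) :
    extDeriv (hB (kr (kap s)) v) x + hB (kr (kap s)) (extDeriv v) x = mol s v x - v x := by
  have hk : Integrable (kr (kap s) : E n → E n) :=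
    kr_integrable (kap_continuous s) (kap_compact hs)
  have h1 := kr_div (kap_continuous s) (kap_compact hs) (hv.smooth.of_le (by simp)) x
  rw [integral_kap hs, one_smul, ← mol_eq_add] at h1
  rw [← h1, hB_eq]
  exact abs_hmt hk (iM n q) (iM n (q + 1))
    (ContinuousAlternatingMap.alternatizeUncurryFinCLM ℝ (E n) ℝ)
    (ContinuousAlternatingMap.alternatizeUncurryFinCLM ℝ (E n) ℝ)
    (fun D z => cartan D z) (hv.smooth.of_le (by simp)) hv.supp x

theorem hB_hmt0 {s : ℝ} (hs : 0 < s) {v : E n → Alt n 0} (hv : Sc v) (x : E n) :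
    hB (kr (kap s)) (extDeriv v) x = mol s v x - v x := by
  have h1 := kr_div (kap_continuous s) (kap_compact hs) (hv.smooth.of_le (by simp)) x
  rw [integral_kap hs, one_smul, ← mol_eq_add] at h1
  rw [← h1, hB_eq]
  refine integral_congr_ae (ae_of_all _ fun z => ?_)
  exact cartan0 _ _

/-- existence of the operators -/
theorem exists_hmt (n : ℕ) {r : ℝ} (hr : 0 < r) : Nonempty (Hmt n r) := by
  have hs : 0 < 1 / r := by positivity
  have hr' : 1 / (1 / r) ≤ r := by simp
  have hk : Integrable (kr (kap (1 / r)) : E n → E n) :=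
    kr_integrable (kap_continuous _) (kap_compact hs)
  have k0 : ∀ z : E n, r ≤ ‖z‖ → kr (kap (1 / r)) z = 0 := fun z hz =>
    kr_supp (ε := r) (fun y hy => kap_zero hs (hr'.trans hy)) hz
  refine ⟨{
    S := fun v => mol (1 / r) v
    B := fun v => hB (kr (kap (1 / r))) v
    S_sc := fun hv => hs_sc hs hv
    B_sc := fun hv => ⟨hB_smooth hk hv, hB_supp k0 hv⟩
    S_add := fun hv hw => hs_add hs hv hw
    B_add := fun hv hw => hB_add hk hv hw
    S_smul := fun c v _ => hs_smul _ c v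
    B_smul := fun c v _ => hB_smul c v
    S_loc := fun x _ _ h => hs_loc hs hr' x h
    B_loc := fun x _ _ h => hB_loc k0 x h
    hmt := fun hv x => hB_hmt hs hv x
    hmt0 := fun hv x => hB_hmt0 hs hv x
    S_bd := fun q => ⟨1, zero_le_one, fun v hv => hs_bd hs hv⟩
    B_bd := fun q => ⟨_, sq_nonneg _, fun v hv => hB_bd hk hv⟩
    lim := fun v hv hc => hs_lim hs v hv hc }⟩

end BH
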