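import Pool.Agent.Lib.MP_4a593f_gt.BH.Sm.Opr
import Pool.Agent.Lib.MP_4a593f_gt.BH.Sm.HmtB

/-!
Part (S), row S9: existence of the smoothing steps.
-/

open scoped Manifold ContDiff Bundle Topology
open MeasureTheory Filter

noncomputable section

universe u

namespace BH

variable {n p : ℕ} {M : Type u} [TopologicalSpace M] [ChartedSpace (E n) M]
  [IsManifold 𝓘(ℝ, E n) ∞ M] [T2Space M] [CompactSpace M]

/-- a step for a compact subset `L` of a chart, with radius small enough for the data `K ⊆ W` -/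
theorem exists_stp {e : OpenPartialHomeomorph M (E n)} (he : e ∈ atlas (E n) M) {L : Set M}
    (hL : IsCompact L) (hLe : L ⊆ e.source) {K W : Set M} (hK : IsCompact K) (hW : IsOpen W)
    (hKW : K ⊆ W) :
    ∃ s : Stp n M, s.e = e ∧ (∃ O, IsOpen O ∧ L ⊆ O ∧
      ∀ x ∈ O, x ∈ e.source ∧ ∀ᶠ y in 𝓝 (e x), s.χ y = 1) ∧
      ∃ b : M → ℝ, SmF n b ∧ tsupport b ⊆ W ∧ ∃ V, IsOpen V ∧ K ⊆ V ∧ (∀ x ∈ V, b x = 1) ∧
        ∀ x ∈ V, x ∈ s.e.source → s.e x ∈ tsupport s.χ → ∀ y, dist y (s.e x) ≤ s.r →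
          b (s.e.symm y) = 1 := by
  have hL1 : IsCompact (e '' L) := hL.image_of_continuousOn (e.continuousOn.mono hLe)
  have hL2 : e '' L ⊆ e.target := by
    rintro _ ⟨x, hx, rfl⟩
    exact e.map_source (hLe hx)
  obtain ⟨χ, hχ, cχ, -, tχ, V1, oV1, hV1, hχ1⟩ := exists_cutE hL1 e.open_target hL2
  obtain ⟨θ, hθ, cθ, -, tθ, V2, oV2, hV2, hθ1⟩ := exists_cutE (K := tsupport χ) cχ e.open_target tχ
  obtain ⟨b, hb, -, tb, V0, oV0, hV0, hb1⟩ := exists_cut (n := n) hK hW hKW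
  obtain ⟨V, oV, hKV, hVV, -⟩ := exists_open_between_and_isCompact_closure hK oV0 hV0
  obtain ⟨r1, hr1, h1⟩ := IsCompact.exists_cthickening_subset_open (s := tsupport χ) cχ oV2 hV2
  set Z : Set (E n) := tsupport χ ∩ e.symm ⁻¹' closure V with hZ
  have cZ : IsCompact Z := by
    refine IsCompact.of_isClosed_subset (s := tsupport χ) cχ ?_ Set.inter_subset_left
    exact (e.symm.continuousOn.mono (by simpa using tχ)).preimage_isClosed_of_isClosed
      (isClosed_tsupport χ) isClosed_closure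
  have oU : IsOpen (e.target ∩ e.symm ⁻¹' V0) := e.isOpen_inter_preimage_symm oV0
  have hZU : Z ⊆ e.target ∩ e.symm ⁻¹' V0 := fun z hz => ⟨tχ hz.1, hVV hz.2⟩
  obtain ⟨r2, hr2, h2⟩ := IsCompact.exists_cthickening_subset_open cZ oU hZU
  obtain ⟨H⟩ := exists_hmt n (lt_min hr1 hr2)
  refine ⟨Stp.ofData e he χ θ hχ hθ cχ cθ tχ tθ (min r1 r2) (lt_min hr1 hr2) H ?_, rfl, ?_, ?_⟩
  · intro x hx y hy
    have hy2 : y ∈ V2 :=
      h1 (Metric.mem_cthickening_of_dist_le y x r1 _ hx (hy.trans (min_le_left _ _)))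
    filter_upwards [oV2.mem_nhds hy2] with z hz
    exact hθ1 z hz
  · refine ⟨e.source ∩ e ⁻¹' V1, e.isOpen_inter_preimage oV1,
      fun x hx => ⟨hLe hx, hV1 ⟨x, hx, rfl⟩⟩, fun x hx => ⟨hx.1, ?_⟩⟩
    filter_upwards [oV1.mem_nhds hx.2] with z hz
    exact hχ1 z hz
  · refine ⟨b, hb, tb, V, oV, hKV, fun x hx => hb1 x (hVV (subset_closure hx)), ?_⟩
    intro x hx hxe hxs y hy
    have hz : e x ∈ Z := ⟨hxs, by
      change e.symm (e x) ∈ closure V
      rw [e.left_inv hxe]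
      exact subset_closure hx⟩
    exact hb1 _ (h2 (Metric.mem_cthickening_of_dist_le y (e x) r2 _ hz
      (hy.trans (min_le_right _ _)))).2

end BH
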