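import Pool.Agent.Lib.MP_4a593f_gt.BH.Sm.Crt
import Pool.Agent.Lib.MP_4a593f_gt.BH.Sm.Stp

/-!
Part (S), row S10: the induction over the charts, smooth primitives.
-/

open scoped Manifold ContDiff Bundle Topology
open MeasureTheory Filter

noncomputable section

universe u

namespace BH

variable {n p : ℕ} {M : Type u} [TopologicalSpace M] [ChartedSpace (E n) M]
  [IsManifold 𝓘(ℝ, E n) ∞ M] [T2Space M] [CompactSpace M]

/-- one more compact set -/
theorem grow {S : Sys n M} {w : Om S (p + 1)} (hw : dO S (p + 1) w = 0)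
    {e : OpenPartialHomeomorph M (E n)} (he : e ∈ atlas (E n) M) {L : Set M}
    (hL : IsCompact L) (hLe : L ⊆ e.source) {K : Set M} (hK : IsCompact K)
    (h : ∃ v : ℕ → Om S p, Prim w v ∧ ∃ W, IsOpen W ∧ K ⊆ W ∧ ∃ η, Near W v η) :
    ∃ v : ℕ → Om S p, Prim w v ∧ ∃ W, IsOpen W ∧ K ∪ L ⊆ W ∧ ∃ η, Near W v η := by
  obtain ⟨v, hv, W, hW, hKW, η, hη⟩ := h
  obtain ⟨s, hse, ⟨O, hO, hLO, hO1⟩, b, hb, tb, V, hV, hKV, hb1, hb2⟩ :=
    exists_stp (n := n) he hL hLe hK hW hKW
  have h1 := hη.nxt s w hb tb hb1 hb2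
  obtain ⟨η₂, h2⟩ := exists_near s w hv.cau (W := O) (fun x hx => by
    rw [hse]
    exact hO1 x hx)
  obtain ⟨b₁, s₁, -, t₁, V₁, hV₁, hKV₁, e₁⟩ := exists_cut (n := n) hK hV hKV
  obtain ⟨b₂, s₂, -, t₂, O₁, hO₁, hLO₁, e₂⟩ := exists_cut (n := n) hL hO hLO
  have s₃ : SmF n (fun x => (1 + -1 * b₁ x) * b₂ x) :=
    ((smF_const 1).add ((smF_const (-1)).mul s₁)).mul s₂
  have t₃ : tsupport (fun x => (1 + -1 * b₁ x) * b₂ x) ⊆ O :=
    (tsupport_mul_subset_right).trans t₂
  refine ⟨nxt s w v, hv.nxt s hw, V₁ ∪ O₁, hV₁.union hO₁, Set.union_subset_union hKV₁ hLO₁, _,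
    h1.union h2 s₁ s₃ t₁ t₃ ?_⟩
  rintro x (hx | hx)
  · rw [e₁ x hx]
    ring
  · rw [e₂ x hx]
    ring

/-- everywhere -/
theorem grow_all {S : Sys n M} {w : Om S (p + 1)} (hw : dO S (p + 1) w = 0)
    {v : ℕ → Om S p} (hv : Prim w v) :
    ∃ v : ℕ → Om S p, Prim w v ∧ ∃ η : Om S p, Tendsto (fun j => ‖v j - η‖) atTop (𝓝 0) := by
  have key : ∀ t : Finset (Fin S.C.N), ∃ v : ℕ → Om S p, Prim w v ∧ ∃ W, IsOpen W ∧
      (⋃ i ∈ t, tsupport (S.C.χ i)) ⊆ W ∧ ∃ η, Near W v η := by
    intro t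
    induction t using Finset.induction_on with
    | empty =>
      refine ⟨v, hv, ∅, isOpen_empty, by simp, 0, ?_⟩
      intro a ha ht
      have h0 : ∀ α : Om S p, mulO S p a ha α = 0 := by
        intro α
        refine Om.ext ?_
        funext x
        have hx : a x = 0 := by
          by_contra hne
          exact (ht (subset_tsupport a hne)).elim
        change a x • α.f x = 0
        rw [hx, zero_smul]
      simp only [h0, norm_zero]
      exact tendsto_const_nhds
    | insert i t hi ih =>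
      have h1 := grow hw (S.C.mem i) (isClosed_tsupport (S.C.χ i)).isCompact (S.C.supp i)
        (K := ⋃ i ∈ t, tsupport (S.C.χ i))
        (t.isCompact_biUnion fun i _ => (isClosed_tsupport (S.C.χ i)).isCompact) ih
      obtain ⟨v', hv', W, hW, hs, η, hη⟩ := h1
      refine ⟨v', hv', W, hW, ?_, η, hη⟩
      rw [Finset.set_biUnion_insert]
      rwa [Set.union_comm]
  obtain ⟨v', hv', W, -, hs, η, hη⟩ := key Finset.univ
  have hW : ∀ x : M, x ∈ W := by
    intro x
    refine hs ?_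
    by_contra hne
    have h0 : ∀ i, S.C.χ i x = 0 := by
      intro i
      by_contra h1
      exact hne (Set.mem_iUnion₂.2 ⟨i, Finset.mem_univ i, subset_tsupport _ h1⟩)
    have h1 := S.C.sum x
    simp only [h0, Finset.sum_const_zero] at h1
    exact zero_ne_one h1
  refine ⟨v', hv', η, ?_⟩
  have h1 := hη (fun _ => 1) (smF_const 1) (fun x _ => hW x)
  have h2 : ∀ α : Om S p, mulO S p (fun _ => 1) (smF_const 1) α = α := by
    intro α
    refine Om.ext ?_
    funext x
    exact one_smul ℝ (α.f x)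
  simpa only [h2] using h1

/-- **Smooth primitives.** -/
theorem exists_smooth_primitive {S : Sys n M} {w : Om S (p + 1)} (hw : dO S (p + 1) w = 0)
    (del : Om S (p + 1) → Om S p)
    (hdel : ∀ (a : Om S p) (f : Om S (p + 1)), inner ℝ (dO S p a) f = inner ℝ a (del f))
    {v : ℕ → Om S p} (hv : Prim w v) : ∃ η : Om S p, dO S p η = w := by
  obtain ⟨v', hv', η, hη⟩ := grow_all hw hv
  refine ⟨η, ?_⟩
  have key : ∀ f : Om S (p + 1), inner ℝ (dO S p η - w) f = 0 := by
    intro f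
    have h1 : Tendsto (fun j => inner ℝ (v' j - η) (del f)) atTop (𝓝 0) := by
      refine squeeze_zero_norm (fun j => norm_inner_le_norm _ _) ?_
      simpa using hη.mul_const ‖del f‖
    have h2 : Tendsto (fun j => inner ℝ (dO S p (v' j) - w) f) atTop (𝓝 0) := by
      refine squeeze_zero_norm (fun j => norm_inner_le_norm _ _) ?_
      simpa using hv'.lim.mul_const ‖f‖
    have h3 : ∀ j, inner ℝ (dO S p (v' j) - w) f - inner ℝ (v' j - η) (del f) =
        inner ℝ (dO S p η - w) f := by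
      intro j
      rw [inner_sub_left, inner_sub_left, inner_sub_left, hdel, hdel]
      ring
    have h4 := h2.sub h1
    simp only [h3, sub_zero] at h4
    exact tendsto_nhds_unique tendsto_const_nhds h4
  have h5 := key (dO S p η - w)
  rw [inner_self_eq_zero, sub_eq_zero] at h5
  exact h5

end BH
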