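import Pool.Agent.Lib.MP_4a593f_gt.BH.Sm.Opr

/-!
Part (S), row S4: comparison of the `L²` norms on `M` and in a chart.
-/

open scoped Manifold ContDiff Bundle Topology
open MeasureTheory Filter

noncomputable section

universe u

namespace BH

variable {n q : ℕ} {M : Type u} [TopologicalSpace M] [ChartedSpace (E n) M]
  [IsManifold 𝓘(ℝ, E n) ∞ M] [T2Space M] [CompactSpace M]

omit [T2Space M] in
theorem norm_sq_eq {S : Sys n M} (a : Om S q) :
    ‖a‖ ^ 2 = IntM S.C S.g (ipM S.g a.f a.f) :=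
  (real_inner_self_eq_norm_sq a).symm

omit [T2Space M] in
theorem intM_mul_le {S : Sys n M} {u : M → ℝ} (hu : Continuous u) {B : ℝ} (hB : ∀ x, u x ≤ B)
    (a : Om S q) : IntM S.C S.g (fun x => u x * ipM S.g a.f a.f x) ≤ B * ‖a‖ ^ 2 := by
  have hF := (smF_ipM S.g a.smooth a.smooth).continuous
  have h1 := IntM_add S.C S.g (u := fun x => u x * ipM S.g a.f a.f x)
    (v := fun x => (B - u x) * ipM S.g a.f a.f x) (hu.mul hF) ((continuous_const.sub hu).mul hF)
  have h2 : (fun x => u x * ipM S.g a.f a.f x + (B - u x) * ipM S.g a.f a.f x) =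
      fun x => B * ipM S.g a.f a.f x := funext fun x => by ring
  have h3 : 0 ≤ IntM S.C S.g (fun x => (B - u x) * ipM S.g a.f a.f x) :=
    IntM_nonneg S.C S.g fun x => mul_nonneg (sub_nonneg.2 (hB x)) (ipM_nonneg S.g a.f x)
  rw [h2, IntM_smul, ← norm_sq_eq] at h1
  linarith

theorem norm_sq_le_chart (S : Sys n M) (q : ℕ) {e : OpenPartialHomeomorph M (E n)}
    (he : e ∈ atlas (E n) M) {K : Set (E n)} (hK : IsCompact K) (hKt : K ⊆ e.target) :
    ∃ C : ℝ, 0 ≤ C ∧ ∀ (h : E n → Alt n q) (hs : Smooth (mk e h)), Sc h →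
      (∀ y, y ∉ K → h y = 0) → ‖Om.of S (mk e h) hs‖ ^ 2 ≤ C * ∫ y, ‖h y‖ ^ 2 := by
  obtain ⟨C, hC0, hC⟩ := ipG_bdd (p := q) (isMet_gloc S.g he) hK hKt
  refine ⟨C, hC0.le, fun h hs hsc h0 => ?_⟩
  have hb : ∀ x, (Om.of S (mk e h) hs).f x ≠ 0 → x ∈ e.symm '' K := by
    intro x hx
    rw [Om.f_of] at hx
    by_cases hxs : x ∈ e.source
    · refine ⟨e x, ?_, e.left_inv hxs⟩
      by_contra hxK
      apply hx
      rw [mk_on hxs, h0 _ hxK]
      ext v
      rfl
    · exact absurd (mk_off hxs) hx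
  rw [← real_inner_self_eq_norm_sq, inner_chart _ _ he hK hKt hb]
  have h1 : ∫ y in e.target, ipG (gmat (gloc e S.g) y) (loc e (Om.of S (mk e h) hs).f y)
      (loc e (Om.of S (mk e h) hs).f y) * vol (gloc e S.g) y =
      ∫ y in e.target, ipG (gmat (gloc e S.g) y) (h y) (h y) * vol (gloc e S.g) y := by
    refine setIntegral_congr_fun e.open_target.measurableSet fun y hy => ?_
    simp only [Om.f_of, loc_mk he h hy]
  have hint : Integrable (fun y => C * ‖h y‖ ^ 2) := hsc.integrable.const_mul C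
  have hpt : ∀ y ∈ e.target, ipG (gmat (gloc e S.g) y) (h y) (h y) * vol (gloc e S.g) y ≤
      C * ‖h y‖ ^ 2 := by
    intro y hy
    by_cases hyK : y ∈ K
    · exact (hC y hyK (h y)).2
    · have h2 := ipG_smul_left (gmat (gloc e S.g) y) (0 : ℝ) (0 : Alt n q) 0
      rw [zero_smul, zero_mul] at h2
      rw [h0 y hyK, h2, zero_mul, norm_zero]
      simp
  rw [h1, ← integral_const_mul]
  refine le_trans (integral_mono_of_nonneg ?_ hint.integrableOn ?_)
    (setIntegral_le_integral hint (Filter.Eventually.of_forall fun y => by positivity))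
  · refine (ae_restrict_iff' e.open_target.measurableSet).2 (Filter.Eventually.of_forall ?_)
    intro y hy
    exact mul_nonneg (ipG_self_nonneg ((isMet_gloc S.g he).pos y hy) _) (Real.sqrt_nonneg _)
  · refine (ae_restrict_iff' e.open_target.measurableSet).2 (Filter.Eventually.of_forall ?_)
    exact hpt

theorem chart_le_norm_sq (S : Sys n M) (q : ℕ) {e : OpenPartialHomeomorph M (E n)}
    (he : e ∈ atlas (E n) M) {θ : E n → ℝ} (hθ : ContDiff ℝ ∞ θ) (cθ : HasCompactSupport θ)
    (tθ : tsupport θ ⊆ e.target) :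
    ∃ C : ℝ, 0 ≤ C ∧ ∀ a : Om S q, ∫ y, ‖θ y • loc e a.f y‖ ^ 2 ≤ C * ‖a‖ ^ 2 := by
  obtain ⟨C, hC0, hC⟩ := ipG_bdd (p := q) (isMet_gloc S.g he) cθ tθ
  obtain ⟨D, hD⟩ := hθ.continuous.bounded_above_of_compact_support cθ
  have hoff : ∀ y, y ∉ tsupport θ → θ y = 0 := fun y hy => image_eq_zero_of_notMem_tsupport hy
  have hu : SmF n (mkF e fun y => θ y ^ 2) :=
    smF_mkF he cθ tθ (hθ.pow 2).contDiffOn fun y _ hy => by simp [hoff y hy]
  have huB : ∀ x, mkF e (fun y => θ y ^ 2) x ≤ D ^ 2 := by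
    intro x
    unfold mkF
    split_ifs
    · have h := hD (e x)
      rw [Real.norm_eq_abs] at h
      exact sq_le_sq' (by linarith [neg_abs_le (θ (e x))]) (by linarith [le_abs_self (θ (e x))])
    · positivity
  refine ⟨C * D ^ 2, by positivity, fun a => ?_⟩
  set b : Om S q := mulO S q (mkF e fun y => θ y ^ 2) hu a with hbdef
  have hbf : b.f = fs (mkF e fun y => θ y ^ 2) a.f := rfl
  have hb : ∀ x, b.f x ≠ 0 → x ∈ e.symm '' tsupport θ := by
    intro x hx
    by_cases hxs : x ∈ e.source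
    · refine ⟨e x, ?_, e.left_inv hxs⟩
      by_contra hxK
      apply hx
      have h1 : mkF e (fun y => θ y ^ 2) x = 0 := by
        unfold mkF
        rw [if_pos hxs]
        simp [hoff _ hxK]
      rw [hbf]
      change mkF e (fun y => θ y ^ 2) x • a.f x = 0
      rw [h1, zero_smul]
    · exfalso
      apply hx
      have h1 : mkF e (fun y => θ y ^ 2) x = 0 := by
        unfold mkF
        rw [if_neg hxs]
      rw [hbf]
      change mkF e (fun y => θ y ^ 2) x • a.f x = 0
      rw [h1, zero_smul]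
  have h1 : inner ℝ a b ≤ D ^ 2 * ‖a‖ ^ 2 := by
    have h2 : inner ℝ a b = IntM S.C S.g
        (fun x => mkF e (fun y => θ y ^ 2) x * ipM S.g a.f a.f x) := by
      rw [Om.inner_def]
      congr 1
      funext x
      rw [ipM_comm, hbf, ipM_fs_left]
    rw [h2]
    exact intM_mul_le hu.continuous huB a
  have h3 := inner_chart a b he cθ tθ hb
  have h4 : ∫ y in e.target, ipG (gmat (gloc e S.g) y) (loc e a.f y) (loc e b.f y) *
      vol (gloc e S.g) y = ∫ y in e.target, θ y ^ 2 *
        (ipG (gmat (gloc e S.g) y) (loc e a.f y) (loc e a.f y) * vol (gloc e S.g) y) := by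
    refine setIntegral_congr_fun e.open_target.measurableSet fun y hy => ?_
    simp only [hbf, loc_fs, mkF_symm e _ hy, ipG_smul_right, mul_assoc]
  have h5 : ∫ y, ‖θ y • loc e a.f y‖ ^ 2 = ∫ y in e.target, ‖θ y • loc e a.f y‖ ^ 2 := by
    refine (setIntegral_eq_integral_of_forall_compl_eq_zero fun y hy => ?_).symm
    rw [hoff y fun h => hy (tθ h), zero_smul, norm_zero]
    simp
  have hcont : ContinuousOn (fun y => C * (θ y ^ 2 *
      (ipG (gmat (gloc e S.g) y) (loc e a.f y) (loc e a.f y) * vol (gloc e S.g) y))) e.target :=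
    continuousOn_const.mul ((hθ.continuous.pow 2).continuousOn.mul
      ((smooth_ipG (isMet_gloc S.g he) (a.smooth e he) (a.smooth e he)).continuousOn.mul
        (isMet_gloc S.g he).vol_smooth.continuousOn))
  have hint : IntegrableOn (fun y => C * (θ y ^ 2 *
      (ipG (gmat (gloc e S.g) y) (loc e a.f y) (loc e a.f y) * vol (gloc e S.g) y))) e.target := by
    refine ((hcont.mono tθ).integrableOn_compact cθ).of_forall_sdiff_eq_zero
      e.open_target.measurableSet fun y hy => ?_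
    rw [hoff y hy.2]
    simp
  calc ∫ y, ‖θ y • loc e a.f y‖ ^ 2 = ∫ y in e.target, ‖θ y • loc e a.f y‖ ^ 2 := h5
    _ ≤ ∫ y in e.target, C * (θ y ^ 2 *
        (ipG (gmat (gloc e S.g) y) (loc e a.f y) (loc e a.f y) * vol (gloc e S.g) y)) := by
        refine integral_mono_of_nonneg (Filter.Eventually.of_forall fun y => by positivity)
          hint ?_
        refine (ae_restrict_iff' e.open_target.measurableSet).2 (Filter.Eventually.of_forall ?_)
        intro y hy
        show ‖θ y • loc e a.f y‖ ^ 2 ≤ _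
        by_cases hyK : y ∈ tsupport θ
        · have h6 := (hC y hyK (loc e a.f y)).1
          rw [norm_smul, mul_pow, Real.norm_eq_abs, sq_abs]
          have h7 := mul_le_mul_of_nonneg_left h6 (sq_nonneg (θ y))
          linarith
        · simp [hoff y hyK]
    _ = C * inner ℝ a b := by rw [integral_const_mul, ← h4, ← h3]
    _ ≤ C * D ^ 2 * ‖a‖ ^ 2 := by
        rw [mul_assoc]
        exact mul_le_mul_of_nonneg_left h1 hC0.le

theorem norm_mulO_le (S : Sys n M) (q : ℕ) {a : M → ℝ} (ha : SmF n a) :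
    ∃ C : ℝ, 0 ≤ C ∧ ∀ α : Om S q, ‖mulO S q a ha α‖ ≤ C * ‖α‖ := by
  obtain ⟨D, hD⟩ := isCompact_univ.exists_bound_of_continuousOn ha.continuous.continuousOn
  have hD0 : ∀ x, a x * a x ≤ |D| ^ 2 := by
    intro x
    have h := hD x (Set.mem_univ x)
    rw [Real.norm_eq_abs] at h
    have h1 : |a x| ≤ |D| := h.trans (le_abs_self D)
    have h2 := mul_self_le_mul_self (abs_nonneg _) h1
    rw [abs_mul_abs_self] at h2
    rw [pow_two]
    exact h2
  refine ⟨|D|, abs_nonneg D, fun α => ?_⟩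
  have h1 : ‖mulO S q a ha α‖ ^ 2 ≤ |D| ^ 2 * ‖α‖ ^ 2 := by
    have h2 : ‖mulO S q a ha α‖ ^ 2 = IntM S.C S.g
        (fun x => (a x * a x) * ipM S.g α.f α.f x) := by
      rw [norm_sq_eq]
      congr 1
      funext x
      change ipM S.g (fs a α.f) (fs a α.f) x = _
      rw [ipM_fs_left, ipM_comm, ipM_fs_left, mul_assoc]
    rw [h2]
    exact intM_mul_le (ha.continuous.mul ha.continuous) hD0 α
  have h3 : ‖mulO S q a ha α‖ ^ 2 ≤ (|D| * ‖α‖) ^ 2 := by rw [mul_pow]; exact h1
  exact le_of_sq_le_sq h3 (by positivity)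

end BH
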