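import Pool.Agent.Lib.MP_4a593f_gt.BH.Sm.Nrm

/-!
Part (S), row S5: the operators `A`, `T`, `R` are bounded for the `L²` norms.
-/

open scoped Manifold ContDiff Bundle Topology
open MeasureTheory Filter

noncomputable section

universe u

namespace BH

variable {n q : ℕ} {M : Type u} [TopologicalSpace M] [ChartedSpace (E n) M]
  [IsManifold 𝓘(ℝ, E n) ∞ M] [T2Space M] [CompactSpace M]

namespace Stp

omit [IsManifold 𝓘(ℝ, E n) ∞ M] [T2Space M] [CompactSpace M] in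
theorem bdd_chi (s : Stp n M) : ∃ C : ℝ, 0 ≤ C ∧ ∀ y, |s.χ y| ≤ C := by
  obtain ⟨C, hC⟩ := s.cχ.exists_bound_of_continuous s.hχ.continuous
  exact ⟨C, (norm_nonneg _).trans (hC 0), hC⟩

omit [IsManifold 𝓘(ℝ, E n) ∞ M] [T2Space M] [CompactSpace M] in
theorem bdd_dchi (s : Stp n M) : ∃ C : ℝ, 0 ≤ C ∧ ∀ y, ‖fderiv ℝ s.χ y‖ ≤ C := by
  obtain ⟨C, hC⟩ := (s.cχ.fderiv ℝ).exists_bound_of_continuous (s.hχ.continuous_fderiv (by simp))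
  exact ⟨C, (norm_nonneg _).trans (hC 0), hC⟩

/-- a bound from a pointwise bound -/
theorem bdd_int {p : ℕ} {v : E n → Alt n p} {w : E n → Alt n q} (hv : Sc v) (hw : Sc w) {C : ℝ}
    (h : ∀ y, ‖v y‖ ≤ C * ‖w y‖) : ∫ y, ‖v y‖ ^ 2 ≤ C ^ 2 * ∫ y, ‖w y‖ ^ 2 := by
  rw [← integral_const_mul]
  refine integral_mono hv.integrable (hw.integrable.const_mul _) fun y => ?_
  have h1 := pow_le_pow_left₀ (norm_nonneg (v y)) (h y) 2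
  rwa [mul_pow] at h1

/-- the square of the norm of a sum -/
theorem bdd_sum {v w : E n → Alt n q} (hv : Sc v) (hw : Sc w) :
    ∫ y, ‖v y + w y‖ ^ 2 ≤ 2 * (∫ y, ‖v y‖ ^ 2) + 2 * ∫ y, ‖w y‖ ^ 2 := by
  rw [← integral_const_mul, ← integral_const_mul,
    ← integral_add (hv.integrable.const_mul _) (hw.integrable.const_mul _)]
  refine integral_mono (hv.add hw).integrable
    ((hv.integrable.const_mul _).add (hw.integrable.const_mul _)) fun y => ?_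
  have h1 := norm_add_le (v y) (w y)
  have h2 := pow_le_pow_left₀ (norm_nonneg (v y + w y)) h1 2
  have h3 : (‖v y‖ + ‖w y‖) ^ 2 ≤ 2 * ‖v y‖ ^ 2 + 2 * ‖w y‖ ^ 2 := by
    nlinarith [sq_nonneg (‖v y‖ - ‖w y‖)]
  exact h2.trans h3

/-- the operator on `M` belonging to a bounded operator on `ℝⁿ` -/
theorem bdd_core (s : Stp n M) (S : Sys n M) {p q : ℕ}
    (F : (E n → Alt n p) → E n → Alt n q) (hsc : ∀ v, Sc v → Sc (F v))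
    (hoff : ∀ v y, y ∉ tsupport s.χ → F v y = 0)
    (hF : ∃ C : ℝ, 0 ≤ C ∧ ∀ v, Sc v → ∫ y, ‖F v y‖ ^ 2 ≤ C * ∫ y, ‖v y‖ ^ 2)
    (G : Om S p → Om S q)
    (hG : ∀ a : Om S p, ∃ h : Smooth (mk s.e (F (s.cut a.f))), G a = Om.of S _ h) :
    ∃ C : ℝ, 0 ≤ C ∧ ∀ a : Om S p, ‖G a‖ ≤ C * ‖a‖ := by
  obtain ⟨C1, h1, H1⟩ := norm_sq_le_chart S q s.he s.cχ s.tχ
  obtain ⟨C2, h2, H2⟩ := chart_le_norm_sq S p s.he s.hθ s.cθ s.tθ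
  obtain ⟨C3, h3, H3⟩ := hF
  refine ⟨√(C1 * (C3 * C2)), Real.sqrt_nonneg _, fun a => ?_⟩
  obtain ⟨h, e⟩ := hG a
  have k1 := H1 (F (s.cut a.f)) h (hsc _ (s.sc_cut a.smooth)) (hoff _)
  have k2 := H3 _ (s.sc_cut a.smooth)
  have k3 : ∫ y, ‖s.cut a.f y‖ ^ 2 ≤ C2 * ‖a‖ ^ 2 := H2 a
  rw [e]
  refine (abs_le_of_sq_le_sq' ?_ (mul_nonneg (Real.sqrt_nonneg _) (norm_nonneg _))).2
  rw [mul_pow, Real.sq_sqrt (by positivity)]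
  calc ‖Om.of S _ h‖ ^ 2 ≤ C1 * ∫ y, ‖F (s.cut a.f) y‖ ^ 2 := k1
    _ ≤ C1 * (C3 * ∫ y, ‖s.cut a.f y‖ ^ 2) := mul_le_mul_of_nonneg_left k2 h1
    _ ≤ C1 * (C3 * (C2 * ‖a‖ ^ 2)) :=
      mul_le_mul_of_nonneg_left (mul_le_mul_of_nonneg_left k3 h3) h1
    _ = C1 * (C3 * C2) * ‖a‖ ^ 2 := by ring

theorem A_bdd (s : Stp n M) (S : Sys n M) (q : ℕ) :
    ∃ C : ℝ, 0 ≤ C ∧ ∀ a : Om S (q + 1), ‖s.A S q a‖ ≤ C * ‖a‖ := by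
  refine bdd_core s S s.aE (fun v hv => s.sc_aE hv) (fun v y hy => s.aE_off v hy) ?_ _
    fun a => ⟨s.smooth_mkA (s.sc_cut a.smooth), rfl⟩
  obtain ⟨C1, h1, H1⟩ := s.bdd_chi
  obtain ⟨C2, h2, H2⟩ := s.H.B_bd q
  refine ⟨C1 ^ 2 * C2, by positivity, fun v hv => ?_⟩
  have k1 : ∫ y, ‖s.aE v y‖ ^ 2 ≤ C1 ^ 2 * ∫ y, ‖s.H.B v y‖ ^ 2 := by
    refine bdd_int (s.sc_aE hv) (s.H.B_sc hv) fun y => ?_
    change ‖s.χ y • s.H.B v y‖ ≤ _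
    rw [norm_smul]
    exact mul_le_mul_of_nonneg_right (H1 y) (norm_nonneg _)
  calc _ ≤ C1 ^ 2 * ∫ y, ‖s.H.B v y‖ ^ 2 := k1
    _ ≤ C1 ^ 2 * (C2 * ∫ y, ‖v y‖ ^ 2) := mul_le_mul_of_nonneg_left (H2 v hv) (by positivity)
    _ = _ := by ring

omit [IsManifold 𝓘(ℝ, E n) ∞ M] [T2Space M] [CompactSpace M] in
theorem bdd_wE (s : Stp n M) (q : ℕ) : ∃ C : ℝ, 0 ≤ C ∧ ∀ v : E n → Alt n q, Sc v →
    ∫ y, ‖s.wE v y‖ ^ 2 ≤ C * ∫ y, ‖v y‖ ^ 2 := by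
  cases q with
  | zero =>
    refine ⟨0, le_rfl, fun v hv => ?_⟩
    have h : ∀ y, s.wE v y = 0 := fun y => rfl
    simp [h]
  | succ q =>
    obtain ⟨C1, h1, H1⟩ := s.bdd_dchi
    obtain ⟨C2, h2, H2⟩ := s.H.B_bd q
    refine ⟨((q + 1) * C1) ^ 2 * C2, by positivity, fun v hv => ?_⟩
    have k1 : ∫ y, ‖s.wE v y‖ ^ 2 ≤ ((q + 1) * C1) ^ 2 * ∫ y, ‖s.H.B v y‖ ^ 2 := by
      refine bdd_int (s.opr_sc_wE hv) (s.H.B_sc hv) fun y => ?_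
      refine (norm_wdg_le s.χ (s.H.B v) y).trans ?_
      rw [mul_assoc]
      exact mul_le_mul_of_nonneg_left (mul_le_mul_of_nonneg_right (H1 y) (norm_nonneg _))
        (by positivity)
    calc _ ≤ ((q + 1) * C1) ^ 2 * ∫ y, ‖s.H.B v y‖ ^ 2 := k1
      _ ≤ ((q + 1) * C1) ^ 2 * (C2 * ∫ y, ‖v y‖ ^ 2) :=
        mul_le_mul_of_nonneg_left (H2 v hv) (by positivity)
      _ = _ := by ring

theorem T_bdd (s : Stp n M) (S : Sys n M) (q : ℕ) :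
    ∃ C : ℝ, 0 ≤ C ∧ ∀ a : Om S q, ‖s.T S q a‖ ≤ C * ‖a‖ := by
  refine bdd_core s S s.tE (fun v hv => s.sc_tE hv) (fun v y hy => s.tE_off v hy) ?_ _
    fun a => ⟨s.smooth_mkT (s.sc_cut a.smooth), rfl⟩
  obtain ⟨C1, h1, H1⟩ := s.bdd_chi
  obtain ⟨C2, h2, H2⟩ := s.H.S_bd q
  obtain ⟨C3, h3, H3⟩ := s.bdd_wE q
  refine ⟨2 * (C1 ^ 2 * (2 * C2 + 2)) + 2 * C3, by positivity, fun v hv => ?_⟩
  have sS := s.H.S_sc hv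
  have s1 : Sc (fun y => s.χ y • (s.H.S v y - v y)) := Sc.mul s.hχ (sS.sub hv)
  have k0 : ∫ y, ‖s.tE v y‖ ^ 2 ≤ 2 * (∫ y, ‖s.χ y • (s.H.S v y - v y)‖ ^ 2) +
      2 * ∫ y, ‖s.wE v y‖ ^ 2 := bdd_sum s1 (s.opr_sc_wE hv)
  have k1 : ∫ y, ‖s.χ y • (s.H.S v y - v y)‖ ^ 2 ≤ C1 ^ 2 * ∫ y, ‖s.H.S v y - v y‖ ^ 2 := by
    refine bdd_int s1 (sS.sub hv) fun y => ?_
    rw [norm_smul]
    exact mul_le_mul_of_nonneg_right (H1 y) (norm_nonneg _)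
  have k2 : ∫ y, ‖s.H.S v y - v y‖ ^ 2 ≤ 2 * (∫ y, ‖s.H.S v y‖ ^ 2) + 2 * ∫ y, ‖v y‖ ^ 2 := by
    have h4 := bdd_sum sS (hv.smul (-1 : ℝ))
    have e0 : ∀ y, ((-1 : ℝ) • v) y = -v y := fun y => by
      ext u
      change (-1 : ℝ) * v y u = -v y u
      ring
    have e1 : ∀ y, ‖s.H.S v y + ((-1 : ℝ) • v) y‖ = ‖s.H.S v y - v y‖ := fun y => by
      rw [e0, sub_eq_add_neg]
    have e2 : ∀ y, ‖((-1 : ℝ) • v) y‖ = ‖v y‖ := fun y => by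
      rw [e0, norm_neg]
    simp only [e1, e2] at h4
    exact h4
  have k3 := H2 v hv
  have k4 := H3 v hv
  refine k0.trans ?_
  have k5 := k1.trans (mul_le_mul_of_nonneg_left
    (k2.trans (add_le_add (mul_le_mul_of_nonneg_left k3 zero_le_two) le_rfl)) (sq_nonneg C1))
  refine (add_le_add (mul_le_mul_of_nonneg_left k5 zero_le_two)
    (mul_le_mul_of_nonneg_left k4 zero_le_two)).trans (le_of_eq ?_)
  ring

theorem R_bdd (s : Stp n M) (S : Sys n M) (q : ℕ) :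
    ∃ C : ℝ, 0 ≤ C ∧ ∀ a : Om S q, ‖s.R S q a‖ ≤ C * ‖a‖ := by
  obtain ⟨C, h, H⟩ := s.T_bdd S q
  refine ⟨1 + C, by linarith, fun a => ?_⟩
  rw [R_apply]
  refine (norm_add_le _ _).trans ?_
  rw [add_mul, one_mul]
  exact add_le_add le_rfl (H a)

end Stp

end BH
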