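import Pool.Agent.Lib.MP_4a593f_gt.BH.Sm.Top

/-!
Part (S), row S11: from strong primitives in the completion to sequences.
-/

open scoped Manifold ContDiff Bundle Topology
open MeasureTheory Filter UniformSpace

noncomputable section

universe u

namespace BH

variable {n p : ℕ} {M : Type u} [TopologicalSpace M] [ChartedSpace (E n) M]
  [IsManifold 𝓘(ℝ, E n) ∞ M] [T2Space M] [CompactSpace M]

theorem exists_prim {S : Sys n M} {w : Om S (p + 1)} {u : Completion (Om S p)}
    (h : ∀ ε : ℝ, 0 < ε → ∃ v : Om S p, ‖(v : Completion (Om S p)) - u‖ < ε ∧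
      ‖dO S p v - w‖ < ε) : ∃ v : ℕ → Om S p, Prim w v := by
  choose f h1 h2 using h
  have hpos : ∀ k : ℕ, (0 : ℝ) < 1 / ((k : ℝ) + 1) := fun k => by positivity
  refine ⟨fun k => f _ (hpos k), ?_, ?_⟩
  · have h3 : Tendsto (fun k => ((f _ (hpos k) : Om S p) : Completion (Om S p))) atTop (𝓝 u) := by
      rw [tendsto_iff_norm_sub_tendsto_zero]
      exact squeeze_zero (fun _ => norm_nonneg _) (fun k => (h1 _ (hpos k)).le)
        tendsto_one_div_add_atTop_nhds_zero_nat
    have h4 := h3.cauchySeq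
    rw [Metric.cauchySeq_iff'] at h4 ⊢
    intro ε hε
    obtain ⟨N, hN⟩ := h4 ε hε
    refine ⟨N, fun k hk => ?_⟩
    have h5 := hN k hk
    rwa [dist_eq_norm, ← Completion.coe_sub, Completion.norm_coe, ← dist_eq_norm] at h5
  · exact squeeze_zero (fun _ => norm_nonneg _) (fun k => (h2 _ (hpos k)).le)
      tendsto_one_div_add_atTop_nhds_zero_nat

end BH
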