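import Pool.Agent.Lib.MP_4a593f_gt.BH.Sm.Near

/-!
Part (S), row S8: creation of smoothness where `χ = 1`.
-/

open scoped Manifold ContDiff Bundle Topology
open MeasureTheory Filter

noncomputable section

universe u

namespace BH

variable {n p : ℕ} {M : Type u} [TopologicalSpace M] [ChartedSpace (E n) M]
  [IsManifold 𝓘(ℝ, E n) ∞ M] [T2Space M] [CompactSpace M]

/-- after the step the sequence converges to a smooth form on `W` -/
theorem exists_near (s : Stp n M) {S : Sys n M} (w : Om S (p + 1)) {v : ℕ → Om S p}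
    (hv : CauchySeq v) {W : Set M} (hW : ∀ x ∈ W, x ∈ s.e.source ∧ ∀ᶠ y in 𝓝 (s.e x), s.χ y = 1) :
    ∃ η : Om S p, Near W (nxt s w v) η := by
  classical
  obtain ⟨C, hC, hch⟩ := chart_le_norm_sq S p s.he s.hθ s.cθ s.tθ
  obtain ⟨D, hD, hnm⟩ := norm_sq_le_chart S p s.he s.cχ s.tχ
  have hsc : ∀ j, Sc (s.cut (v j).f) := fun j => s.sc_cut (v j).smooth
  -- the sequence in the chart is Cauchy
  obtain ⟨V, hV, hlim⟩ := s.H.lim (fun j => s.cut (v j).f) hsc (by
    intro ε hε
    have hpos : 0 < ε / (C + 1) := by positivity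
    obtain ⟨N, hN⟩ := Metric.cauchySeq_iff.1 hv (Real.sqrt (ε / (C + 1))) (Real.sqrt_pos.2 hpos)
    refine ⟨N, fun i hi j hj => ?_⟩
    have h1 : ∀ x, s.cut (v i).f x - s.cut (v j).f x = s.θ x • loc s.e (v i - v j).f x := by
      intro x
      have h2 : v i - v j = v i + (-1 : ℝ) • v j := by
        rw [neg_one_smul]
        abel
      rw [h2, Om.f_add, Om.f_smul, loc_add, loc_smul, Pi.add_apply, Pi.smul_apply]
      ext u
      change s.θ x * loc s.e (v i).f x u - s.θ x * loc s.e (v j).f x u =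
        s.θ x * (loc s.e (v i).f x u + -1 * loc s.e (v j).f x u)
      ring
    simp_rw [h1]
    have h3 := hch (v i - v j)
    have h4 : ‖v i - v j‖ < Real.sqrt (ε / (C + 1)) := by
      rw [← dist_eq_norm]
      exact hN i hi j hj
    have h5 : ‖v i - v j‖ ^ 2 < ε / (C + 1) := by
      rw [← Real.lt_sqrt (norm_nonneg _)]
      exact h4
    calc ∫ x, ‖s.θ x • loc s.e (v i - v j).f x‖ ^ 2 ≤ C * ‖v i - v j‖ ^ 2 := h3
      _ ≤ (C + 1) * ‖v i - v j‖ ^ 2 := by
          have := sq_nonneg ‖v i - v j‖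
          nlinarith
      _ < (C + 1) * (ε / (C + 1)) := by
          exact mul_lt_mul_of_pos_left h5 (by positivity)
      _ = ε := by field_simp)
  -- the limit form
  have hχ0 : ∀ y, y ∉ tsupport s.χ → s.χ y = 0 := fun y hy => image_eq_zero_of_notMem_tsupport hy
  have smk : ∀ U : E n → Alt n p, ContDiff ℝ ∞ U → Smooth (mk s.e fun y => s.χ y • U y) := by
    intro U hU
    refine smooth_mk s.he s.cχ s.tχ (s.hχ.smul hU).contDiffOn fun y _ hy => ?_
    rw [hχ0 y hy, zero_smul]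
  refine ⟨Om.of S (mk s.e fun y => s.χ y • V y) (smk V hV) - s.A S p w, ?_⟩
  intro a ha hsupp
  obtain ⟨B, hB, hM⟩ := norm_mulO_le S p ha
  have hS : ∀ j, ContDiff ℝ ∞ fun y => s.H.S (s.cut (v j).f) y - V y := fun j =>
    (s.H.S_sc (hsc j)).smooth.sub hV
  have key : ∀ j, mulO S p a ha (nxt s w v j -
      (Om.of S (mk s.e fun y => s.χ y • V y) (smk V hV) - s.A S p w)) =
      mulO S p a ha (Om.of S (mk s.e fun y => s.χ y • (s.H.S (s.cut (v j).f) y - V y))
        (smk _ (hS j))) := by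
    intro j
    have h3 : nxt s w v j = s.R S p (v j) - s.A S p w := rfl
    have h4 : nxt s w v j - (Om.of S (mk s.e fun y => s.χ y • V y) (smk V hV) - s.A S p w) =
        s.R S p (v j) - Om.of S (mk s.e fun y => s.χ y • V y) (smk V hV) := by
      rw [h3]
      abel
    rw [h4]
    refine Om.ext ?_
    funext x
    change a x • ((s.R S p (v j)).f x - mk s.e (fun y => s.χ y • V y) x) =
      a x • mk s.e (fun y => s.χ y • (s.H.S (s.cut (v j).f) y - V y)) x
    by_cases hx : x ∈ W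
    · obtain ⟨hxs, h1⟩ := hW x hx
      rw [s.R_one S (v j) hxs h1, mk_on hxs, mk_on hxs, mk_on hxs, h1.self_of_nhds]
      ext u
      simp only [one_smul]
      rfl
    · have h0 : a x = 0 := by
        by_contra h0
        exact hx (hsupp (subset_tsupport _ h0))
      rw [h0]
      ext u
      change (0 : ℝ) * _ = 0 * _
      rw [zero_mul, zero_mul]
  simp_rw [key]
  -- the norms
  have hint : Integrable fun y => s.χ y ^ 2 := by
    have h1 : Continuous fun y => s.χ y ^ 2 := s.hχ.continuous.pow 2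
    refine h1.integrable_of_hasCompactSupport ?_
    exact s.cχ.comp_left (g := fun t : ℝ => t ^ 2) (by norm_num)
  set I : ℝ := ∫ y, s.χ y ^ 2 with hI
  have hI0 : 0 ≤ I := integral_nonneg fun y => sq_nonneg _
  rw [Metric.tendsto_atTop]
  intro ε hε
  have hpos : 0 < B + 1 := by positivity
  have hDI : 0 < D * I + 1 := by positivity
  set δ : ℝ := ε / (B + 1) / (2 * Real.sqrt (D * I + 1)) with hδ
  have hsq : 0 < Real.sqrt (D * I + 1) := Real.sqrt_pos.2 hDI
  have hδ0 : 0 < δ := by positivity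
  obtain ⟨N, hN⟩ := hlim δ hδ0
  refine ⟨N, fun j hj => ?_⟩
  rw [Real.dist_0_eq_abs, abs_of_nonneg (norm_nonneg _)]
  have hscj : Sc fun y => s.χ y • (s.H.S (s.cut (v j).f) y - V y) :=
    ⟨s.hχ.smul (hS j), s.cχ.smul_right⟩
  have h5 := hnm _ (smk _ (hS j)) hscj fun y hy => by rw [hχ0 y hy, zero_smul]
  have h6 : ∫ y, ‖s.χ y • (s.H.S (s.cut (v j).f) y - V y)‖ ^ 2 ≤ δ ^ 2 * I := by
    rw [hI, ← integral_const_mul]
    refine integral_mono hscj.integrable (hint.const_mul _) fun y => ?_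
    change ‖s.χ y • (s.H.S (s.cut (v j).f) y - V y)‖ ^ 2 ≤ δ ^ 2 * s.χ y ^ 2
    rw [norm_smul, mul_pow, Real.norm_eq_abs, sq_abs, mul_comm]
    refine mul_le_mul_of_nonneg_right ?_ (sq_nonneg _)
    exact pow_le_pow_left₀ (norm_nonneg _) (hN j hj y).le 2
  have h7 : ‖Om.of S (mk s.e fun y => s.χ y • (s.H.S (s.cut (v j).f) y - V y)) (smk _ (hS j))‖ ≤
      δ * Real.sqrt (D * I + 1) := by
    refine (pow_le_pow_iff_left₀ (norm_nonneg _) (by positivity) two_ne_zero).1 ?_
    rw [mul_pow, Real.sq_sqrt hDI.le]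
    calc _ ≤ D * (δ ^ 2 * I) := h5.trans (mul_le_mul_of_nonneg_left h6 hD)
      _ ≤ δ ^ 2 * (D * I + 1) := by nlinarith [sq_nonneg δ]
  calc _ ≤ B * (δ * Real.sqrt (D * I + 1)) := (hM _).trans (mul_le_mul_of_nonneg_left h7 hB)
    _ ≤ (B + 1) * (δ * Real.sqrt (D * I + 1)) := by
        have : 0 ≤ δ * Real.sqrt (D * I + 1) := by positivity
        nlinarith
    _ = ε / 2 := by
        rw [hδ]
        field_simp
    _ < ε := by linarith

end BH
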