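import Pool.Agent.Lib.MP_4a593f_gt.BH.Sm.Rn
import Pool.Agent.Lib.MP_4a593f_gt.BH.Mol.Lim

/-!
Part (S): the mollifier `Mol.mol s` has the properties of the field `S` of `Hmt`.
-/

open scoped Manifold ContDiff Bundle Topology
open MeasureTheory Filter

noncomputable section

namespace BH

open Pool.Agent.Lib.MP_4a593f_gt.BH.Mol

variable {n q : ℕ}

theorem hs_sc {s : ℝ} (hs : 0 < s) {v : E n → Alt n q} (hv : Sc v) : Sc (mol s v) :=
  ⟨mol_contDiff (m := ⊤) hs hv.smooth.continuous, mol_compact hs hv.supp⟩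

theorem hs_add {s : ℝ} (hs : 0 < s) {v w : E n → Alt n q} (hv : Sc v) (hw : Sc w) :
    mol s (v + w) = mol s v + mol s w :=
  mol_add hs hv.smooth.continuous hw.smooth.continuous

theorem hs_smul (s c : ℝ) (v : E n → Alt n q) : mol s (c • v) = c • mol s v :=
  mol_smul s c v

theorem hs_loc {s r : ℝ} (hs : 0 < s) (hr : 1 / s ≤ r) {v w : E n → Alt n q} (x : E n)
    (h : ∀ y, dist y x ≤ r → v y = w y) : mol s v x = mol s w x := by
  unfold mol
  refine integral_congr_ae (ae_of_all _ fun t => ?_)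
  change kap s t • v (x - t) = kap s t • w (x - t)
  by_cases ht : 1 / s ≤ ‖t‖
  · rw [kap_zero hs ht, zero_smul, zero_smul]
  · rw [h (x - t)]
    rw [dist_eq_norm, sub_sub_cancel_left, norm_neg]
    exact (not_le.1 ht).le.trans hr

theorem hs_bd {s : ℝ} (hs : 0 < s) {v : E n → Alt n q} (hv : Sc v) :
    ∫ x, ‖mol s v x‖ ^ 2 ≤ 1 * ∫ x, ‖v x‖ ^ 2 := by
  rw [one_mul]
  exact mol_sq_le hs hv.smooth.continuous hv.supp

theorem Sc.memLp {v : E n → Alt n q} (hv : Sc v) : MemLp v 2 volume :=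
  hv.smooth.continuous.memLp_of_hasCompactSupport hv.supp

/-- the `L²` norm -/
theorem norm_toLp_sq {v : E n → Alt n q} (hv : MemLp v 2 volume) :
    ‖hv.toLp v‖ ^ 2 = ∫ x, ‖v x‖ ^ 2 := by
  rw [Lp.norm_toLp, hv.eLpNorm_eq_integral_rpow_norm two_ne_zero ENNReal.ofNat_ne_top]
  have h0 : 0 ≤ ∫ x, ‖v x‖ ^ (2 : ℝ) := integral_nonneg fun x => by positivity
  rw [ENNReal.toReal_ofNat, ENNReal.toReal_ofReal (by positivity), ← Real.rpow_natCast,
    ← Real.rpow_mul h0]
  norm_num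

/-- the kernel is square integrable -/
theorem kap_memLp {s : ℝ} (hs : 0 < s) : MemLp (kap s : E n → ℝ) 2 volume :=
  (kap_continuous s).memLp_of_hasCompactSupport (kap_compact hs)

section holder

variable {X F : Type*} [MeasurableSpace X] {μ : Measure X} [NormedAddCommGroup F]
  [NormedSpace ℝ F]

/-- Hoelder -/
theorem holder_two {k : X → ℝ} {f : X → F} (hk : MemLp k 2 μ) (hf : MemLp f 2 μ) :
    ‖∫ y, k y • f y ∂μ‖ ≤ (eLpNorm k 2 μ).toReal * (eLpNorm f 2 μ).toReal := by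
  have h1 : eLpNorm (k • f) 1 μ ≤ eLpNorm k 2 μ * eLpNorm f 2 μ := by
    have := eLpNorm_smul_le_mul_eLpNorm (p := 2) (q := 2) (r := 1) hf.1 hk.1
    exact this
  have hint : MemLp (k • f) 1 μ := hf.smul hk
  calc ‖∫ y, k y • f y ∂μ‖ ≤ ∫ y, ‖(k • f) y‖ ∂μ := norm_integral_le_integral_norm _
    _ = (eLpNorm (k • f) 1 μ).toReal := by
      rw [eLpNorm_one_eq_lintegral_enorm, integral_norm_eq_lintegral_enorm hint.1]
    _ ≤ (eLpNorm k 2 μ * eLpNorm f 2 μ).toReal :=
      ENNReal.toReal_mono (ENNReal.mul_ne_top hk.2.ne hf.2.ne) h1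
    _ = _ := ENNReal.toReal_mul

theorem integrable_two {k : X → ℝ} {f : X → F} (hk : MemLp k 2 μ) (hf : MemLp f 2 μ) :
    Integrable (fun y => k y • f y) μ := by
  have h2 : MemLp (k • f) 1 μ := hf.smul hk
  exact memLp_one_iff_integrable.1 h2

end holder

theorem kap_memLp_sub {s : ℝ} (hs : 0 < s) (x : E n) :
    MemLp (fun y : E n => kap s (x - y)) 2 volume :=
  (kap_memLp hs).comp_measurePreserving (Measure.measurePreserving_sub_left volume x)

/-- Hoelder: the mollification is bounded by the `L²` norm -/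
theorem mol_le_L2 {s : ℝ} (hs : 0 < s) : ∃ C : ℝ, 0 ≤ C ∧ ∀ (f : E n → Alt n q) (x : E n),
    MemLp f 2 volume → ‖mol s f x‖ ≤ C * (eLpNorm f 2 volume).toReal := by
  refine ⟨(eLpNorm (kap s : E n → ℝ) 2 volume).toReal, ENNReal.toReal_nonneg, fun f x hf => ?_⟩
  have hk' : eLpNorm (fun y : E n => kap s (x - y)) 2 volume =
      eLpNorm (kap s : E n → ℝ) 2 volume :=
    eLpNorm_comp_measurePreserving (kap_memLp hs).1
      (Measure.measurePreserving_sub_left volume x)
  rw [mol_eq, ← hk']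
  exact holder_two (kap_memLp_sub hs x) hf

theorem hs_lim {s : ℝ} (hs : 0 < s) (v : ℕ → E n → Alt n q) (hv : ∀ j, Sc (v j))
    (hc : ∀ ε : ℝ, 0 < ε → ∃ N, ∀ i ≥ N, ∀ j ≥ N, ∫ x, ‖v i x - v j x‖ ^ 2 < ε) :
    ∃ V : E n → Alt n q, ContDiff ℝ ∞ V ∧
      ∀ ε : ℝ, 0 < ε → ∃ N, ∀ j ≥ N, ∀ x, ‖mol s (v j) x - V x‖ < ε := by
  have hm : ∀ j, MemLp (v j) 2 volume := fun j => (hv j).memLp
  have hcau : CauchySeq fun j => (hm j).toLp (v j) := by
    rw [Metric.cauchySeq_iff]
    intro ε hε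
    obtain ⟨N, hN⟩ := hc (ε ^ 2) (by positivity)
    refine ⟨N, fun i hi j hj => ?_⟩
    rw [dist_eq_norm, ← MemLp.toLp_sub]
    refine lt_of_pow_lt_pow_left₀ 2 hε.le ?_
    rw [norm_toLp_sq]
    exact hN i hi j hj
  obtain ⟨U, hU⟩ := cauchySeq_tendsto_of_complete hcau
  obtain ⟨C, hC0, hC⟩ := mol_le_L2 (n := n) (q := q) hs
  have hUm : MemLp (U : E n → Alt n q) 2 volume := Lp.memLp U
  refine ⟨mol s (U : E n → Alt n q), ?_, fun ε hε => ?_⟩
  · rw [mol_eq_conv]
    exact (kap_compact hs).contDiff_convolution_left (ContinuousLinearMap.lsmul ℝ ℝ)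
      (kap_contDiff (m := ⊤) s) (hUm.locallyIntegrable one_le_two)
  · rw [Metric.tendsto_atTop] at hU
    obtain ⟨N, hN⟩ := hU (ε / (C + 1)) (by positivity)
    refine ⟨N, fun j hj x => ?_⟩
    have h1 : mol s (v j) x - mol s (U : E n → Alt n q) x =
        mol s (fun y => v j y - (U : E n → Alt n q) y) x := by
      rw [mol_eq, mol_eq, mol_eq, ← integral_sub]
      · refine integral_congr_ae (ae_of_all _ fun y => ?_)
        simp only [smul_sub]
      · exact integrable_two (kap_memLp_sub hs x) (hm j)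
      · exact integrable_two (kap_memLp_sub hs x) hUm
    rw [h1]
    have h2 := hC (fun y => v j y - (U : E n → Alt n q) y) x ((hm j).sub hUm)
    have h3 : (eLpNorm (fun y => v j y - (U : E n → Alt n q) y) 2 volume).toReal =
        ‖(hm j).toLp (v j) - U‖ := by
      rw [Lp.norm_def]
      congr 1
      refine eLpNorm_congr_ae ?_
      have h4 := Lp.coeFn_sub ((hm j).toLp (v j)) U
      have h5 := (hm j).coeFn_toLp
      filter_upwards [h4, h5] with y h6 h7
      rw [h6, Pi.sub_apply, h7]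
    rw [h3] at h2
    have h4 := hN j hj
    rw [dist_eq_norm] at h4
    refine lt_of_le_of_lt h2 ?_
    calc C * ‖(hm j).toLp (v j) - U‖ ≤ (C + 1) * ‖(hm j).toLp (v j) - U‖ := by
          refine mul_le_mul_of_nonneg_right ?_ (norm_nonneg _)
          linarith
      _ < (C + 1) * (ε / (C + 1)) := mul_lt_mul_of_pos_left h4 (by positivity)
      _ = ε := by field_simp

end BH
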