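import Pool.Agent.Lib.MP_4a593f_gt.BH.Sm.Opr

/-!
Part (S), row S3: the homotopy formula `T = dA + Ad` on `M`.
-/

open scoped Manifold ContDiff Bundle Topology
open MeasureTheory Filter

noncomputable section

universe u

namespace BH

variable {n q : ℕ} {M : Type u} [TopologicalSpace M] [ChartedSpace (E n) M]
  [IsManifold 𝓘(ℝ, E n) ∞ M] [T2Space M]

namespace Stp

/-- `A dv` in the chart: near the support of `χ` the cut-off commutes with `d` -/
theorem cut_dM (s : Stp n M) {α : Form n M q} (hα : Smooth α) {x y : E n}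
    (hx : x ∈ tsupport s.χ) (hy : dist y x ≤ s.r) :
    s.cut (dM α) y = extDeriv (s.cut α) y := by
  have h1 : ∀ᶠ z in 𝓝 y, s.θ z = 1 := s.hr x hx y hy
  have h2 : s.θ y = 1 := h1.self_of_nhds
  have h3 : y ∈ s.e.target := by
    refine s.tθ (subset_tsupport _ ?_)
    rw [Function.mem_support, h2]
    exact one_ne_zero
  have h4 : s.cut α =ᶠ[𝓝 y] loc s.e α := by
    filter_upwards [h1] with z hz
    unfold cut
    rw [hz, one_smul]
  rw [h4.extDeriv_eq, ← loc_dM hα s.he h3]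
  unfold cut
  rw [h2, one_smul]

/-- `χ B (cut dα) = χ B (d (cut α))` -/
theorem chi_B_cut (s : Stp n M) {α : Form n M q} (hα : Smooth α) (y : E n) :
    s.χ y • s.H.B (s.cut (dM α)) y = s.χ y • s.H.B (extDeriv (s.cut α)) y := by
  by_cases h : s.χ y = 0
  · rw [h, zero_smul, zero_smul]
  · have h1 : y ∈ tsupport s.χ := subset_tsupport _ h
    rw [s.H.B_loc y (s.sc_cut hα.dM) (s.sc_cut hα).ext fun z hz => s.cut_dM hα h1 hz]

theorem T_succ (s : Stp n M) (S : Sys n M) (a : Om S (q + 1)) :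
    s.T S (q + 1) a = dO S q (s.A S q a) + s.A S (q + 1) (dO S (q + 1) a) := by
  have hc := s.sc_cut a.smooth
  refine Om.ext ?_
  rw [Om.f_add, dO_f, A_f, A_f, T_f, dO_f,
    dM_mk s.he s.cχ s.tχ (s.sc_aE hc).smooth.contDiffOn fun _ _ h => s.aE_off _ h,
    ← mk_add]
  refine mk_congr fun y _ => ?_
  have h1 : extDeriv (s.aE (s.cut a.f)) y =
      s.χ y • extDeriv (s.H.B (s.cut a.f)) y + wdg s.χ (s.H.B (s.cut a.f)) y :=
    ext_mul s.hχ (s.H.B_sc hc).smooth y
  have h2 : s.aE (s.cut (dM a.f)) y = s.χ y • s.H.B (extDeriv (s.cut a.f)) y :=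
    s.chi_B_cut a.smooth y
  have h3 : s.tE (s.cut a.f) y =
      s.χ y • (s.H.S (s.cut a.f) y - s.cut a.f y) + wdg s.χ (s.H.B (s.cut a.f)) y := rfl
  rw [h1, h2, h3, ← s.H.hmt hc y, smul_add]
  abel

theorem T_zero (s : Stp n M) (S : Sys n M) (a : Om S 0) :
    s.T S 0 a = s.A S 0 (dO S 0 a) := by
  have hc := s.sc_cut a.smooth
  refine Om.ext ?_
  rw [A_f, T_f, dO_f]
  refine mk_congr fun y _ => ?_
  have h2 : s.aE (s.cut (dM a.f)) y = s.χ y • s.H.B (extDeriv (s.cut a.f)) y :=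
    s.chi_B_cut a.smooth y
  have h3 : s.tE (s.cut a.f) y =
      s.χ y • (s.H.S (s.cut a.f) y - s.cut a.f y) + 0 := rfl
  rw [h2, h3, s.H.hmt0 hc y, add_zero]

theorem dO_dO (S : Sys n M) (a : Om S q) : dO S (q + 1) (dO S q a) = 0 :=
  Om.ext (dM_dM a.smooth)

theorem dO_T (s : Stp n M) (S : Sys n M) (a : Om S q) :
    dO S q (s.T S q a) = s.T S (q + 1) (dO S q a) := by
  cases q with
  | zero => rw [T_zero, T_succ, dO_dO, map_zero, add_zero]
  | succ q => rw [T_succ, T_succ, dO_dO, map_zero, add_zero, map_add, dO_dO, zero_add]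

theorem dO_R (s : Stp n M) (S : Sys n M) (a : Om S q) :
    dO S q (s.R S q a) = s.R S (q + 1) (dO S q a) := by
  rw [R_apply, R_apply, map_add, dO_T]

/-- on closed forms `R = 1 + dA` -/
theorem R_closed (s : Stp n M) (S : Sys n M) {w : Om S (q + 1)} (hw : dO S (q + 1) w = 0) :
    s.R S (q + 1) w = w + dO S q (s.A S q w) := by
  rw [R_apply, T_succ, hw, map_zero, add_zero]

end Stp

end BH
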