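import Pool.Agent.Lib.MP_4a593f_gt.BH.Sm.Opr

/-!
Part (S), row S6: locality of `R`.
-/

open scoped Manifold ContDiff Bundle Topology
open MeasureTheory Filter

noncomputable section

universe u

set_option linter.unusedSectionVars false

namespace BH

variable {n q : ℕ} {M : Type u} [TopologicalSpace M] [ChartedSpace (E n) M]
  [IsManifold 𝓘(ℝ, E n) ∞ M] [T2Space M]

namespace Stp

theorem lcl_loc (e : OpenPartialHomeomorph M (E n)) {α β : Form n M q} {y : E n}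
    (h : α (e.symm y) = β (e.symm y)) : loc e α y = loc e β y := by
  unfold loc
  rw [h]

theorem lcl_mk_loc {e : OpenPartialHomeomorph M (E n)} (he : e ∈ atlas (E n) M)
    (α : Form n M q) {x : M} (hx : x ∈ e.source) : mk e (loc e α) x = α x := by
  rw [mk_on hx]
  ext v
  have h1 : ∀ x', x' = x → (α x' : Alt n q) = (α x : Alt n q) := by
    rintro _ rfl
    rfl
  change (α (e.symm (e x)) : Alt n q) (fun i => (mfderiv 𝓘(ℝ, E n) 𝓘(ℝ, E n) e.symm (e x)
    (mfderiv 𝓘(ℝ, E n) 𝓘(ℝ, E n) e x (v i)) : E n)) = (α x : Alt n q) v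
  rw [h1 _ (e.left_inv hx)]
  congr 1
  funext i
  exact mfderiv_symm_comp he hx (v i)

theorem lcl_mk_congr {e : OpenPartialHomeomorph M (E n)} {f h : E n → Alt n q} {x : M}
    (H : x ∈ e.source → f (e x) = h (e x)) : mk e f x = mk e h x := by
  by_cases hx : x ∈ e.source
  · rw [mk_on hx, mk_on hx, H hx]
  · rw [mk_off hx, mk_off hx]

theorem lcl_wE (s : Stp n M) (y : E n) : ∀ {q : ℕ} {v w : E n → Alt n q}, Sc v → Sc w →
    (∀ z, dist z y ≤ s.r → v z = w z) → s.wE v y = s.wE w y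
  | 0, _, _, _, _, _ => rfl
  | _ + 1, v, w, hv, hw, h => by
    change wdg s.χ (s.H.B v) y = wdg s.χ (s.H.B w) y
    unfold wdg
    rw [s.H.B_loc y hv hw h]

theorem lcl_tE (s : Stp n M) (y : E n) {v w : E n → Alt n q} (hv : Sc v) (hw : Sc w)
    (h : ∀ z, dist z y ≤ s.r → v z = w z) : s.tE v y = s.tE w y := by
  have h0 : v y = w y := h y (by rw [dist_self]; exact s.r0.le)
  change s.χ y • (s.H.S v y - v y) + s.wE v y = s.χ y • (s.H.S w y - w y) + s.wE w y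
  rw [s.H.S_loc y hv hw h, h0, s.lcl_wE y hv hw h]

/-- `R a` at `x` depends only on `a` at `x` and on the ball of radius `r` in the chart -/
theorem R_local (s : Stp n M) (S : Sys n M) {a b : Om S q} {x : M} (h0 : a.f x = b.f x)
    (h : x ∈ s.e.source → s.e x ∈ tsupport s.χ → ∀ y, dist y (s.e x) ≤ s.r →
      a.f (s.e.symm y) = b.f (s.e.symm y)) : (s.R S q a).f x = (s.R S q b).f x := by
  rw [s.R_f, s.R_f]
  change a.f x + mk s.e (s.tE (s.cut a.f)) x = b.f x + mk s.e (s.tE (s.cut b.f)) x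
  rw [h0]
  congr 1
  refine lcl_mk_congr fun hx => ?_
  by_cases hχ : s.e x ∈ tsupport s.χ
  · refine s.lcl_tE _ (s.sc_cut a.smooth) (s.sc_cut b.smooth) fun z hz => ?_
    change s.θ z • loc s.e a.f z = s.θ z • loc s.e b.f z
    rw [lcl_loc s.e (h hx hχ z hz)]
  · rw [s.tE_off _ hχ, s.tE_off _ hχ]

theorem lcl_wE_one (s : Stp n M) {y : E n} (h1 : ∀ᶠ z in 𝓝 y, s.χ z = 1) :
    ∀ {q : ℕ} (v : E n → Alt n q), s.wE v y = 0
  | 0, _ => rfl
  | _ + 1, v => by
    change wdg s.χ (s.H.B v) y = 0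
    have h2 : fderiv ℝ s.χ y = 0 := by
      have h3 : s.χ =ᶠ[𝓝 y] fun _ => 1 := h1
      rw [h3.fderiv_eq]
      simp
    unfold wdg
    rw [h2]
    ext w
    simp [ContinuousAlternatingMap.alternatizeUncurryFin_apply]

/-- where `χ = 1`, `R` is the mollification in the chart -/
theorem R_one (s : Stp n M) (S : Sys n M) (a : Om S q) {x : M} (hx : x ∈ s.e.source)
    (h1 : ∀ᶠ y in 𝓝 (s.e x), s.χ y = 1) :
    (s.R S q a).f x = mk s.e (s.H.S (s.cut a.f)) x := by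
  have h2 : s.χ (s.e x) = 1 := h1.self_of_nhds
  have h3 : s.e x ∈ tsupport s.χ := subset_tsupport _ (by
    rw [Function.mem_support, h2]
    exact one_ne_zero)
  have h4 : s.θ (s.e x) = 1 :=
    (s.hr _ h3 (s.e x) (by rw [dist_self]; exact s.r0.le)).self_of_nhds
  have h5 : s.cut a.f (s.e x) = loc s.e a.f (s.e x) := by
    change s.θ (s.e x) • loc s.e a.f (s.e x) = _
    rw [h4, one_smul]
  have h6 : s.tE (s.cut a.f) (s.e x) = s.H.S (s.cut a.f) (s.e x) - loc s.e a.f (s.e x) := by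
    change s.χ (s.e x) • (s.H.S (s.cut a.f) (s.e x) - s.cut a.f (s.e x)) +
      s.wE (s.cut a.f) (s.e x) = _
    rw [h2, one_smul, h5, s.lcl_wE_one h1, add_zero]
  rw [s.R_f]
  change a.f x + mk s.e (s.tE (s.cut a.f)) x = _
  have h7 : a.f x = mk s.e (loc s.e a.f) x := (lcl_mk_loc s.he a.f hx).symm
  rw [h7, mk_on hx, mk_on hx, mk_on hx, h6]
  ext v
  change loc s.e a.f (s.e x) (fun i => mfderiv 𝓘(ℝ, E n) 𝓘(ℝ, E n) s.e x (v i)) +
    (s.H.S (s.cut a.f) (s.e x) (fun i => mfderiv 𝓘(ℝ, E n) 𝓘(ℝ, E n) s.e x (v i)) -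
      loc s.e a.f (s.e x) (fun i => mfderiv 𝓘(ℝ, E n) 𝓘(ℝ, E n) s.e x (v i))) =
    s.H.S (s.cut a.f) (s.e x) (fun i => mfderiv 𝓘(ℝ, E n) 𝓘(ℝ, E n) s.e x (v i))
  ring

end Stp

end BH
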