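import Pool.Agent.Lib.MP_4a593f_gt.BH.Sm.Htp
import Pool.Agent.Lib.MP_4a593f_gt.BH.Sm.Bdd
import Pool.Agent.Lib.MP_4a593f_gt.BH.Sm.Lcl

/-!
Part (S), row S7: sequences of forms which converge to a smooth form on an open set.
-/

open scoped Manifold ContDiff Bundle Topology
open MeasureTheory Filter

noncomputable section

universe u

namespace BH

variable {n p : ℕ} {M : Type u} [TopologicalSpace M] [ChartedSpace (E n) M]
  [IsManifold 𝓘(ℝ, E n) ∞ M] [T2Space M] [CompactSpace M]

/-- `v` is Cauchy and `dv → w` -/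
structure Prim {S : Sys n M} (w : Om S (p + 1)) (v : ℕ → Om S p) : Prop where
  cau : CauchySeq v
  lim : Tendsto (fun j => ‖dO S p (v j) - w‖) atTop (𝓝 0)

/-- the sequence `v` converges on `W` to the smooth form `η` -/
def Near {S : Sys n M} (W : Set M) (v : ℕ → Om S p) (η : Om S p) : Prop :=
  ∀ (a : M → ℝ) (ha : SmF n a), tsupport a ⊆ W →
    Tendsto (fun j => ‖mulO S p a ha (v j - η)‖) atTop (𝓝 0)

/-- the next sequence: `R v - A w` -/
def nxt (s : Stp n M) {S : Sys n M} (w : Om S (p + 1)) (v : ℕ → Om S p) : ℕ → Om S p :=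
  fun j => s.R S p (v j) - s.A S p w

theorem Prim.nxt (s : Stp n M) {S : Sys n M} {w : Om S (p + 1)} (hw : dO S (p + 1) w = 0)
    {v : ℕ → Om S p} (hv : Prim w v) : Prim w (nxt s w v) := by
  obtain ⟨C, hC, hR⟩ := s.R_bdd S p
  obtain ⟨C', hC', hR'⟩ := s.R_bdd S (p + 1)
  constructor
  · have h1 : UniformContinuous fun x : Om S p => s.R S p x - s.A S p w :=
      ((s.R S p).mkContinuous C hR).uniformContinuous.sub uniformContinuous_const
    exact h1.comp_cauchySeq hv.cau
  · have h1 : ∀ j, dO S p (BH.nxt s w v j) - w = s.R S (p + 1) (dO S p (v j) - w) := by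
      intro j
      have h2 : dO S p (s.A S p w) = s.R S (p + 1) w - w := by
        rw [s.R_closed S hw]
        abel
      have h3 : BH.nxt s w v j = s.R S p (v j) - s.A S p w := rfl
      rw [h3, map_sub, map_sub, s.dO_R S (v j), h2]
      abel
    refine squeeze_zero (fun j => norm_nonneg _) (fun j => ?_)
      (by simpa using hv.lim.const_mul C')
    rw [h1]
    exact hR' _

theorem mulO_f (S : Sys n M) (p : ℕ) (a : M → ℝ) (ha : SmF n a) (α : Om S p) :
    (mulO S p a ha α).f = fs a α.f := rfl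

/-- two pieces -/
theorem Near.union {S : Sys n M} {v : ℕ → Om S p} {W₁ W₂ : Set M} {η₁ η₂ : Om S p}
    (h₁ : Near W₁ v η₁) (h₂ : Near W₂ v η₂) {a₁ a₂ : M → ℝ} (s₁ : SmF n a₁) (s₂ : SmF n a₂)
    (t₁ : tsupport a₁ ⊆ W₁) (t₂ : tsupport a₂ ⊆ W₂) {W : Set M}
    (h : ∀ x ∈ W, a₁ x + a₂ x = 1) :
    Near W v (mulO S p a₁ s₁ η₁ + mulO S p a₂ s₂ η₂) := by
  intro a ha hW
  obtain ⟨C, hC, hM⟩ := norm_mulO_le S p ha
  have key : ∀ j, mulO S p a ha (v j - (mulO S p a₁ s₁ η₁ + mulO S p a₂ s₂ η₂)) =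
      mulO S p a ha (mulO S p a₁ s₁ (v j - η₁)) + mulO S p a ha (mulO S p a₂ s₂ (v j - η₂)) := by
    intro j
    refine Om.ext ?_
    funext x
    ext u
    change a x * ((v j).f x u - (a₁ x * η₁.f x u + a₂ x * η₂.f x u)) =
      a x * (a₁ x * ((v j).f x u - η₁.f x u)) + a x * (a₂ x * ((v j).f x u - η₂.f x u))
    by_cases hx : x ∈ W
    · have := h x hx
      linear_combination (-(a x * (v j).f x u)) * this
    · have : a x = 0 := by
        by_contra h0
        exact hx (hW (subset_tsupport _ h0))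
      rw [this]
      ring
  refine squeeze_zero (fun j => norm_nonneg _)
    (g := fun j => C * ‖mulO S p a₁ s₁ (v j - η₁)‖ + C * ‖mulO S p a₂ s₂ (v j - η₂)‖)
    (fun j => ?_) (by simpa using ((h₁ a₁ s₁ t₁).const_mul C).add ((h₂ a₂ s₂ t₂).const_mul C))
  rw [key j]
  exact (norm_add_le _ _).trans (add_le_add (hM _) (hM _))

/-- a smoothing step of small radius preserves `Near` -/
theorem Near.nxt (s : Stp n M) {S : Sys n M} (w : Om S (p + 1)) {v : ℕ → Om S p} {W W' : Set M}
    {η : Om S p} (hv : Near W v η) {b : M → ℝ} (hb : SmF n b) (tb : tsupport b ⊆ W)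
    (h0 : ∀ x ∈ W', b x = 1)
    (h1 : ∀ x ∈ W', x ∈ s.e.source → s.e x ∈ tsupport s.χ → ∀ y, dist y (s.e x) ≤ s.r →
      b (s.e.symm y) = 1) :
    Near W' (BH.nxt s w v) (s.R S p η - s.A S p w) := by
  intro a ha hW
  obtain ⟨C, hC, hM⟩ := norm_mulO_le S p ha
  obtain ⟨C', hC', hR⟩ := s.R_bdd S p
  have key : ∀ j, mulO S p a ha (BH.nxt s w v j - (s.R S p η - s.A S p w)) =
      mulO S p a ha (s.R S p (mulO S p b hb (v j - η))) := by
    intro j
    have h2 : BH.nxt s w v j - (s.R S p η - s.A S p w) = s.R S p (v j - η) := by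
      have h3 : BH.nxt s w v j = s.R S p (v j) - s.A S p w := rfl
      rw [h3, map_sub]
      abel
    rw [h2]
    refine Om.ext ?_
    funext x
    change a x • (s.R S p (v j - η)).f x = a x • (s.R S p (mulO S p b hb (v j - η))).f x
    by_cases hx : x ∈ W'
    · rw [s.R_local S (a := v j - η) (b := mulO S p b hb (v j - η)) (x := x)]
      · rw [mulO_f]
        unfold fs
        rw [h0 x hx]
        exact (one_smul ℝ _).symm
      · intro h4 h5 y hy
        rw [mulO_f]
        unfold fs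
        rw [h1 x hx h4 h5 y hy]
        exact (one_smul ℝ _).symm
    · have : a x = 0 := by
        by_contra h0
        exact hx (hW (subset_tsupport _ h0))
      rw [this]
      ext u
      change (0 : ℝ) * _ = 0 * _
      rw [zero_mul, zero_mul]
  refine squeeze_zero (fun j => norm_nonneg _)
    (g := fun j => C * (C' * ‖mulO S p b hb (v j - η)‖))
    (fun j => ?_) (by simpa using ((hv b hb tb).const_mul C').const_mul C)
  rw [key j]
  exact (hM _).trans (mul_le_mul_of_nonneg_left (hR _) hC)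

end BH
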