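import Pool.Agent.Lib.MP_4a593f_gt.BH.Sm.Rn

/-!
Part (S), smoothing. The operators `A`, `T`, `R = 1 + T` on the forms of `M` belonging to one chart.
-/

open scoped Manifold ContDiff Bundle Topology
open MeasureTheory Filter

noncomputable section

universe u

namespace BH

variable {n q : ℕ} {M : Type u} [TopologicalSpace M] [ChartedSpace (E n) M]

variable (n M) in
/-- a smoothing step: a chart, cut-off functions, the operators on `ℝⁿ` -/
structure Stp where ofData ::
  e : OpenPartialHomeomorph M (E n)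
  he : e ∈ atlas (E n) M
  χ : E n → ℝ
  θ : E n → ℝ
  hχ : ContDiff ℝ ∞ χ
  hθ : ContDiff ℝ ∞ θ
  cχ : HasCompactSupport χ
  cθ : HasCompactSupport θ
  tχ : tsupport χ ⊆ e.target
  tθ : tsupport θ ⊆ e.target
  r : ℝ
  r0 : 0 < r
  H : Hmt n r
  hr : ∀ x ∈ tsupport χ, ∀ y, dist y x ≤ r → ∀ᶠ z in 𝓝 y, θ z = 1

namespace Stp

/-- the form in the chart, cut off -/
def cut (s : Stp n M) (α : Form n M q) : E n → Alt n q := fun y => s.θ y • loc s.e α y

/-- `χ B` -/
def aE (s : Stp n M) (v : E n → Alt n (q + 1)) : E n → Alt n q := fun y => s.χ y • s.H.B v y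

/-- `dχ ∧ B`, zero in degree `0` -/
def wE (s : Stp n M) : {q : ℕ} → (E n → Alt n q) → E n → Alt n q
  | 0, _ => 0
  | _ + 1, v => wdg s.χ (s.H.B v)

/-- `χ (S - 1) + dχ ∧ B` -/
def tE (s : Stp n M) (v : E n → Alt n q) : E n → Alt n q := fun y =>
  s.χ y • (s.H.S v y - v y) + s.wE v y

/-! ### Row S2: elementary properties -/

theorem opr_sc_zero : Sc (0 : E n → Alt n q) :=
  ⟨contDiff_const, HasCompactSupport.zero⟩

theorem opr_wdg_add (χ : E n → ℝ) (b c : E n → Alt n q) :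
    wdg χ (b + c) = wdg χ b + wdg χ c := by
  funext y
  have h : (fderiv ℝ χ y).smulRight ((b + c) y) =
      (fderiv ℝ χ y).smulRight (b y) + (fderiv ℝ χ y).smulRight (c y) := by
    ext v w
    simp [smul_add]
  change ContinuousAlternatingMap.alternatizeUncurryFin ((fderiv ℝ χ y).smulRight ((b + c) y)) =
    ContinuousAlternatingMap.alternatizeUncurryFin ((fderiv ℝ χ y).smulRight (b y)) +
      ContinuousAlternatingMap.alternatizeUncurryFin ((fderiv ℝ χ y).smulRight (c y))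
  rw [h, ContinuousAlternatingMap.alternatizeUncurryFin_add]

theorem opr_wdg_smul (χ : E n → ℝ) (c : ℝ) (b : E n → Alt n q) :
    wdg χ (c • b) = c • wdg χ b := by
  funext y
  have h : (fderiv ℝ χ y).smulRight ((c • b) y) = c • (fderiv ℝ χ y).smulRight (b y) := by
    ext v w
    simp [mul_left_comm]
  change ContinuousAlternatingMap.alternatizeUncurryFin ((fderiv ℝ χ y).smulRight ((c • b) y)) =
    c • ContinuousAlternatingMap.alternatizeUncurryFin ((fderiv ℝ χ y).smulRight (b y))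
  rw [h, ContinuousAlternatingMap.alternatizeUncurryFin_smul]

theorem opr_wdg_off {χ : E n → ℝ} (b : E n → Alt n q) {y : E n} (hy : y ∉ tsupport χ) :
    wdg χ b y = 0 := by
  have h1 : fderiv ℝ χ y = 0 := by
    have h2 : χ =ᶠ[𝓝 y] fun _ => 0 := notMem_tsupport_iff_eventuallyEq.1 hy
    rw [h2.fderiv_eq]
    simp
  have h3 : (fderiv ℝ χ y).smulRight (b y) = (0 : E n →L[ℝ] Alt n q) := by
    rw [h1]
    ext v w
    simp
  unfold wdg
  rw [h3]
  ext v
  simp [ContinuousAlternatingMap.alternatizeUncurryFin_apply]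

theorem sc_cut (s : Stp n M) {α : Form n M q} (hα : Smooth α) : Sc (s.cut α) := by
  refine ⟨contDiff_iff_contDiffAt.2 fun y => ?_, ?_⟩
  · by_cases hy : y ∈ s.e.target
    · have h1 : ContDiffAt ℝ ∞ (loc s.e α) y :=
        (hα s.e s.he).contDiffAt (s.e.open_target.mem_nhds hy)
      exact s.hθ.contDiffAt.smul h1
    · have h1 : s.θ =ᶠ[𝓝 y] fun _ => 0 :=
        notMem_tsupport_iff_eventuallyEq.1 fun h => hy (s.tθ h)
      have h2 : s.cut α =ᶠ[𝓝 y] fun _ => 0 := by
        filter_upwards [h1] with z hz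
        change s.θ z • loc s.e α z = 0
        rw [hz, zero_smul]
      exact contDiffAt_const.congr_of_eventuallyEq h2
  · exact s.cθ.smul_right

theorem cut_add (s : Stp n M) (α β : Form n M q) : s.cut (α + β) = s.cut α + s.cut β := by
  funext y
  change s.θ y • loc s.e (α + β) y = s.θ y • loc s.e α y + s.θ y • loc s.e β y
  rw [loc_add, Pi.add_apply, smul_add]

theorem cut_smul (s : Stp n M) (c : ℝ) (α : Form n M q) : s.cut (c • α) = c • s.cut α := by
  funext y
  change s.θ y • loc s.e (c • α) y = c • (s.θ y • loc s.e α y)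
  rw [loc_smul, Pi.smul_apply, smul_comm]

theorem sc_aE (s : Stp n M) {v : E n → Alt n (q + 1)} (hv : Sc v) : Sc (s.aE v) :=
  Sc.mul s.hχ (s.H.B_sc hv)

theorem opr_sc_wE (s : Stp n M) : ∀ {q : ℕ} {v : E n → Alt n q}, Sc v → Sc (s.wE v)
  | 0, _, _ => opr_sc_zero
  | _ + 1, _, hv => Sc.wdg s.hχ (s.H.B_sc hv)

theorem sc_tE (s : Stp n M) {v : E n → Alt n q} (hv : Sc v) : Sc (s.tE v) :=
  (Sc.mul s.hχ ((s.H.S_sc hv).sub hv)).add (s.opr_sc_wE hv)

theorem aE_add (s : Stp n M) {v w : E n → Alt n (q + 1)} (hv : Sc v) (hw : Sc w) :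
    s.aE (v + w) = s.aE v + s.aE w := by
  funext y
  change s.χ y • s.H.B (v + w) y = s.χ y • s.H.B v y + s.χ y • s.H.B w y
  rw [s.H.B_add hv hw, Pi.add_apply, smul_add]

theorem aE_smul (s : Stp n M) (c : ℝ) {v : E n → Alt n (q + 1)} (hv : Sc v) :
    s.aE (c • v) = c • s.aE v := by
  funext y
  change s.χ y • s.H.B (c • v) y = c • (s.χ y • s.H.B v y)
  rw [s.H.B_smul c hv, Pi.smul_apply, smul_comm]

theorem opr_wE_add (s : Stp n M) : ∀ {q : ℕ} {v w : E n → Alt n q}, Sc v → Sc w →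
    s.wE (v + w) = s.wE v + s.wE w
  | 0, _, _, _, _ => (add_zero (0 : E n → Alt n 0)).symm
  | _ + 1, v, w, hv, hw => by
    change wdg s.χ (s.H.B (v + w)) = wdg s.χ (s.H.B v) + wdg s.χ (s.H.B w)
    rw [s.H.B_add hv hw, opr_wdg_add]

theorem opr_wE_smul (s : Stp n M) (c : ℝ) : ∀ {q : ℕ} {v : E n → Alt n q}, Sc v →
    s.wE (c • v) = c • s.wE v
  | 0, _, _ => (smul_zero c).symm
  | _ + 1, v, hv => by
    change wdg s.χ (s.H.B (c • v)) = c • wdg s.χ (s.H.B v)
    rw [s.H.B_smul c hv, opr_wdg_smul]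

theorem tE_add (s : Stp n M) {v w : E n → Alt n q} (hv : Sc v) (hw : Sc w) :
    s.tE (v + w) = s.tE v + s.tE w := by
  funext y
  change s.χ y • (s.H.S (v + w) y - (v + w) y) + s.wE (v + w) y =
    (s.χ y • (s.H.S v y - v y) + s.wE v y) + (s.χ y • (s.H.S w y - w y) + s.wE w y)
  rw [s.H.S_add hv hw, s.opr_wE_add hv hw, Pi.add_apply, Pi.add_apply, Pi.add_apply,
    add_sub_add_comm, smul_add]
  abel

theorem tE_smul (s : Stp n M) (c : ℝ) {v : E n → Alt n q} (hv : Sc v) :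
    s.tE (c • v) = c • s.tE v := by
  funext y
  change s.χ y • (s.H.S (c • v) y - (c • v) y) + s.wE (c • v) y =
    c • (s.χ y • (s.H.S v y - v y) + s.wE v y)
  have h1 : ∀ (a b w : Alt n q) (x : ℝ),
      x • (c • a - c • b) + c • w = c • (x • (a - b) + w) := by
    intro a b w x
    module
  rw [s.H.S_smul c hv, s.opr_wE_smul c hv]
  exact h1 _ _ _ _

/-- `aE v` and `tE v` vanish off the support of `χ` -/
theorem aE_off (s : Stp n M) (v : E n → Alt n (q + 1)) {y : E n} (hy : y ∉ tsupport s.χ) :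
    s.aE v y = 0 := by
  change s.χ y • s.H.B v y = 0
  rw [image_eq_zero_of_notMem_tsupport hy, zero_smul]

theorem opr_wE_off (s : Stp n M) {y : E n} (hy : y ∉ tsupport s.χ) :
    ∀ {q : ℕ} (v : E n → Alt n q), s.wE v y = 0
  | 0, _ => rfl
  | _ + 1, v => opr_wdg_off (s.H.B v) hy

theorem tE_off (s : Stp n M) (v : E n → Alt n q) {y : E n} (hy : y ∉ tsupport s.χ) :
    s.tE v y = 0 := by
  change s.χ y • (s.H.S v y - v y) + s.wE v y = 0
  rw [image_eq_zero_of_notMem_tsupport hy, zero_smul, zero_add, s.opr_wE_off hy]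

variable [IsManifold 𝓘(ℝ, E n) ∞ M] [T2Space M]

theorem smooth_mkA (s : Stp n M) {v : E n → Alt n (q + 1)} (hv : Sc v) :
    Smooth (mk s.e (s.aE v)) :=
  smooth_mk s.he s.cχ s.tχ (s.sc_aE hv).smooth.contDiffOn fun _ _ h => s.aE_off v h

theorem smooth_mkT (s : Stp n M) {v : E n → Alt n q} (hv : Sc v) :
    Smooth (mk s.e (s.tE v)) :=
  smooth_mk s.he s.cχ s.tχ (s.sc_tE hv).smooth.contDiffOn fun _ _ h => s.tE_off v h

/-- the homotopy operator of the step -/
def A (s : Stp n M) (S : Sys n M) (q : ℕ) : Om S (q + 1) →ₗ[ℝ] Om S q where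
  toFun a := Om.of S (mk s.e (s.aE (s.cut a.f))) (s.smooth_mkA (s.sc_cut a.smooth))
  map_add' a b := Om.ext (by
    change mk s.e (s.aE (s.cut (a.f + b.f))) = _
    rw [s.cut_add, s.aE_add (s.sc_cut a.smooth) (s.sc_cut b.smooth)]
    exact mk_add _ _ _)
  map_smul' c a := Om.ext (by
    change mk s.e (s.aE (s.cut (c • a.f))) = _
    rw [s.cut_smul, s.aE_smul c (s.sc_cut a.smooth)]
    exact mk_smul _ _ _)

/-- `T = dA + Ad` -/
def T (s : Stp n M) (S : Sys n M) (q : ℕ) : Om S q →ₗ[ℝ] Om S q where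
  toFun a := Om.of S (mk s.e (s.tE (s.cut a.f))) (s.smooth_mkT (s.sc_cut a.smooth))
  map_add' a b := Om.ext (by
    change mk s.e (s.tE (s.cut (a.f + b.f))) = _
    rw [s.cut_add, s.tE_add (s.sc_cut a.smooth) (s.sc_cut b.smooth)]
    exact mk_add _ _ _)
  map_smul' c a := Om.ext (by
    change mk s.e (s.tE (s.cut (c • a.f))) = _
    rw [s.cut_smul, s.tE_smul c (s.sc_cut a.smooth)]
    exact mk_smul _ _ _)

/-- the smoothing operator of the step -/
def R (s : Stp n M) (S : Sys n M) (q : ℕ) : Om S q →ₗ[ℝ] Om S q := LinearMap.id + s.T S q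

theorem A_f (s : Stp n M) (S : Sys n M) (a : Om S (q + 1)) :
    (s.A S q a).f = mk s.e (s.aE (s.cut a.f)) := rfl

theorem T_f (s : Stp n M) (S : Sys n M) (a : Om S q) :
    (s.T S q a).f = mk s.e (s.tE (s.cut a.f)) := rfl

theorem R_f (s : Stp n M) (S : Sys n M) (a : Om S q) :
    (s.R S q a).f = a.f + mk s.e (s.tE (s.cut a.f)) := rfl

theorem R_apply (s : Stp n M) (S : Sys n M) (a : Om S q) :
    s.R S q a = a + s.T S q a := rfl

end Stp

end BH
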