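import Pool.Agent.Lib.MP_4a593f_gt.BH.Int

/-!
Part (S), smoothing. Regularisation and homotopy operators on `ℝⁿ`: the interface.
`S` is the convolution with a bump function supported in the ball of radius `r`,
`B v x = ∫ ρ(y) ∫₀¹ (ι_y v)(x + t y) dt dy`.
-/

open scoped Manifold ContDiff Bundle Topology
open MeasureTheory Filter

noncomputable section

namespace BH

variable {n q : ℕ}

/-- smooth with compact support -/
structure Sc (v : E n → Alt n q) : Prop where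
  smooth : ContDiff ℝ ∞ v
  supp : HasCompactSupport v

/-- the operators `S`, `B` with radius `r` -/
structure Hmt (n : ℕ) (r : ℝ) where
  /-- the mollifier -/
  S : {q : ℕ} → (E n → Alt n q) → E n → Alt n q
  /-- the homotopy operator -/
  B : {q : ℕ} → (E n → Alt n (q + 1)) → E n → Alt n q
  S_sc : ∀ {q : ℕ} {v : E n → Alt n q}, Sc v → Sc (S v)
  B_sc : ∀ {q : ℕ} {v : E n → Alt n (q + 1)}, Sc v → Sc (B v)
  S_add : ∀ {q : ℕ} {v w : E n → Alt n q}, Sc v → Sc w → S (v + w) = S v + S w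
  B_add : ∀ {q : ℕ} {v w : E n → Alt n (q + 1)}, Sc v → Sc w → B (v + w) = B v + B w
  S_smul : ∀ {q : ℕ} (c : ℝ) {v : E n → Alt n q}, Sc v → S (c • v) = c • S v
  B_smul : ∀ {q : ℕ} (c : ℝ) {v : E n → Alt n (q + 1)}, Sc v → B (c • v) = c • B v
  S_loc : ∀ {q : ℕ} {v w : E n → Alt n q} (x : E n), Sc v → Sc w →
    (∀ y, dist y x ≤ r → v y = w y) → S v x = S w x
  B_loc : ∀ {q : ℕ} {v w : E n → Alt n (q + 1)} (x : E n), Sc v → Sc w →
    (∀ y, dist y x ≤ r → v y = w y) → B v x = B w x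
  hmt : ∀ {q : ℕ} {v : E n → Alt n (q + 1)}, Sc v → ∀ x,
    extDeriv (B v) x + B (extDeriv v) x = S v x - v x
  hmt0 : ∀ {v : E n → Alt n 0}, Sc v → ∀ x, B (extDeriv v) x = S v x - v x
  S_bd : ∀ q : ℕ, ∃ C : ℝ, 0 ≤ C ∧ ∀ v : E n → Alt n q, Sc v →
    ∫ x, ‖S v x‖ ^ 2 ≤ C * ∫ x, ‖v x‖ ^ 2
  B_bd : ∀ q : ℕ, ∃ C : ℝ, 0 ≤ C ∧ ∀ v : E n → Alt n (q + 1), Sc v →
    ∫ x, ‖B v x‖ ^ 2 ≤ C * ∫ x, ‖v x‖ ^ 2
  /-- `S` maps `L²`-Cauchy sequences to uniformly convergent ones, with smooth limits -/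
  lim : ∀ {q : ℕ} (v : ℕ → E n → Alt n q), (∀ j, Sc (v j)) →
    (∀ ε : ℝ, 0 < ε → ∃ N, ∀ i ≥ N, ∀ j ≥ N, ∫ x, ‖v i x - v j x‖ ^ 2 < ε) →
    ∃ V : E n → Alt n q, ContDiff ℝ ∞ V ∧
      ∀ ε : ℝ, 0 < ε → ∃ N, ∀ j ≥ N, ∀ x, ‖S (v j) x - V x‖ < ε

/-! ### Row S1: closure properties of `Sc` -/

theorem Sc.add {v w : E n → Alt n q} (hv : Sc v) (hw : Sc w) : Sc (v + w) :=
  ⟨hv.smooth.add hw.smooth, hv.supp.add hw.supp⟩

theorem Sc.smul (c : ℝ) {v : E n → Alt n q} (hv : Sc v) : Sc (c • v) :=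
  ⟨hv.smooth.const_smul c, hv.supp.mono' fun x hx => subset_tsupport _ fun h => hx (by
    show c • v x = 0
    rw [h, smul_zero])⟩

theorem Sc.sub {v w : E n → Alt n q} (hv : Sc v) (hw : Sc w) : Sc (v - w) := by
  have h := hv.add (hw.smul (-1 : ℝ))
  have h2 : v + (-1 : ℝ) • w = v - w := by
    funext x
    ext u
    show v x u + (-1 : ℝ) * w x u = v x u - w x u
    ring
  rwa [h2] at h

theorem Sc.mul {χ : E n → ℝ} (hχ : ContDiff ℝ ∞ χ) {v : E n → Alt n q} (hv : Sc v) :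
    Sc (fun y => χ y • v y) :=
  ⟨hχ.smul hv.smooth, hv.supp.mono' fun x hx => subset_tsupport _ fun h => hx (by
    show χ x • v x = 0
    rw [h, smul_zero])⟩

theorem ext_eq_clm (v : E n → Alt n q) : extDeriv v = fun y =>
    ContinuousAlternatingMap.alternatizeUncurryFinCLM ℝ (E n) ℝ (fderiv ℝ v y) := by
  funext y
  rw [ContinuousAlternatingMap.alternatizeUncurryFinCLM_apply]
  rfl

theorem Sc.ext {v : E n → Alt n q} (hv : Sc v) : Sc (extDeriv v) := by
  rw [ext_eq_clm]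
  refine ⟨ContDiff.comp (g := ContinuousAlternatingMap.alternatizeUncurryFinCLM ℝ (E n) ℝ)
    (ContinuousLinearMap.contDiff _) (hv.smooth.fderiv_right (m := ∞) (by simp)), ?_⟩
  exact (hv.supp.fderiv ℝ).mono' fun x hx => subset_tsupport _ fun h => hx (by
    show ContinuousAlternatingMap.alternatizeUncurryFinCLM ℝ (E n) ℝ (fderiv ℝ v x) = 0
    rw [h, map_zero])

/-- `dχ ∧ b` -/
def wdg (χ : E n → ℝ) (b : E n → Alt n q) : E n → Alt n (q + 1) := fun y =>
  ContinuousAlternatingMap.alternatizeUncurryFin ((fderiv ℝ χ y).smulRight (b y))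

theorem wdg_eq_clm (χ : E n → ℝ) (v : E n → Alt n q) : wdg χ v = fun y =>
    ContinuousAlternatingMap.alternatizeUncurryFinCLM ℝ (E n) ℝ
      ((fderiv ℝ χ y).smulRight (v y)) := by
  funext y
  rw [ContinuousAlternatingMap.alternatizeUncurryFinCLM_apply]
  rfl

theorem Sc.wdg {χ : E n → ℝ} (hχ : ContDiff ℝ ∞ χ) {v : E n → Alt n q} (hv : Sc v) :
    Sc (wdg χ v) := by
  rw [wdg_eq_clm]
  refine ⟨ContDiff.comp (g := ContinuousAlternatingMap.alternatizeUncurryFinCLM ℝ (E n) ℝ)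
    (ContinuousLinearMap.contDiff _)
    ((hχ.fderiv_right (m := ∞) (by simp)).smulRight hv.smooth), ?_⟩
  exact hv.supp.mono' fun x hx => subset_tsupport _ fun h => hx (by
    show ContinuousAlternatingMap.alternatizeUncurryFinCLM ℝ (E n) ℝ
      ((fderiv ℝ χ x).smulRight (v x)) = 0
    rw [h]
    have : (fderiv ℝ χ x).smulRight (0 : Alt n q) = 0 := by
      ext
      simp
    rw [this, map_zero])

/-- the Leibniz rule `d (χ b) = χ db + dχ ∧ b` -/
theorem ext_mul {χ : E n → ℝ} (hχ : ContDiff ℝ ∞ χ) {b : E n → Alt n q} (hb : ContDiff ℝ ∞ b)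
    (y : E n) : extDeriv (fun y => χ y • b y) y = χ y • extDeriv b y + wdg χ b y := by
  rw [ext_eq_clm, ext_eq_clm, wdg_eq_clm]
  show ContinuousAlternatingMap.alternatizeUncurryFinCLM ℝ (E n) ℝ
    (fderiv ℝ (fun y => χ y • b y) y) = χ y •
      ContinuousAlternatingMap.alternatizeUncurryFinCLM ℝ (E n) ℝ (fderiv ℝ b y) +
      ContinuousAlternatingMap.alternatizeUncurryFinCLM ℝ (E n) ℝ
        ((fderiv ℝ χ y).smulRight (b y))
  rw [fderiv_fun_smul ((hχ.differentiable (by simp)) y) ((hb.differentiable (by simp)) y),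
    map_add, map_smul]

theorem norm_wdg_le (χ : E n → ℝ) (b : E n → Alt n q) (y : E n) :
    ‖wdg χ b y‖ ≤ (q + 1) * (‖fderiv ℝ χ y‖ * ‖b y‖) := by
  have h := ContinuousAlternatingMap.norm_alternatizeUncurryFin_le
    ((fderiv ℝ χ y).smulRight (b y))
  rwa [ContinuousLinearMap.norm_smulRight_apply] at h

/-- `Sc` functions are square integrable -/
theorem Sc.integrable {v : E n → Alt n q} (hv : Sc v) :
    Integrable (fun x => ‖v x‖ ^ 2) := by
  refine (hv.smooth.continuous.norm.pow 2).integrable_of_hasCompactSupport ?_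
  exact hv.supp.mono' fun x hx => subset_tsupport _ fun h => hx (by
    show ‖v x‖ ^ 2 = 0
    rw [h, norm_zero]
    norm_num)

end BH
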